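import Mathlib

/-!
# A basis adapted to a `p`-group of matrices commuting with a given matrix
-/

set_option autoImplicit false

namespace Pool.Agent.MP_fa0f6c_al

open Matrix Module

section growth

variable {k n : Type*} [Field k] [Finite k] [Fintype n] [DecidableEq n] {p : ℕ} [Fact p.Prime]
  [CharP k p]

theorem growth (P : Subgroup (GL n k)) (hP : IsPGroup p P) (U : Submodule k (n → k))
    (hU : ∀ u ∈ P, ∀ v ∈ U, (u : Matrix n n k).mulVec v ∈ U) (hne : U ≠ ⊤) :
    ∃ v, v ∉ U ∧ ∀ u ∈ P, (u : Matrix n n k).mulVec v - v ∈ U := by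
  classical
  have hcomap : ∀ u : P, U ≤ U.comap (Matrix.toLin' ((u : GL n k) : Matrix n n k)) := by
    intro u v hv
    exact hU u u.2 v hv
  let f : P →* Module.End k ((n → k) ⧸ U) :=
    { toFun := fun u => U.mapQ U (Matrix.toLin' ((u : GL n k) : Matrix n n k)) (hcomap u)
      map_one' := by
        apply Submodule.linearMap_qext
        apply LinearMap.ext
        intro v
        simp
      map_mul' := fun a b => by
        apply Submodule.linearMap_qext
        apply LinearMap.ext
        intro v
        simp [Matrix.toLin'_apply, Matrix.mulVec_mulVec] }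
  let _ : MulAction P ((n → k) ⧸ U) := MulAction.compHom _ f
  have hsmul : ∀ (u : P) (v : n → k), u • (Submodule.Quotient.mk v : (n → k) ⧸ U) =
      Submodule.Quotient.mk (((u : GL n k) : Matrix n n k).mulVec v) := by
    intro u v
    show f u (Submodule.Quotient.mk v) = _
    simp [f, Matrix.toLin'_apply]
  have : Nontrivial ((n → k) ⧸ U) := Submodule.Quotient.nontrivial_iff.2 hne
  have : Finite ((n → k) ⧸ U) := Finite.of_surjective _ (Submodule.Quotient.mk_surjective U)
  have hcard : p ∣ Nat.card ((n → k) ⧸ U) := by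
    rw [Module.natCard_eq_pow_finrank (K := k)]
    have h1 : 0 < Module.finrank k ((n → k) ⧸ U) := Module.finrank_pos
    have h2 : p ∣ Nat.card k := by
      have := Fintype.ofFinite k
      obtain ⟨m, -, hm⟩ := FiniteField.card k p
      rw [Nat.card_eq_fintype_card, hm]
      exact dvd_pow_self _ m.ne_zero
    exact dvd_pow h2 h1.ne'
  have h0 : (0 : (n → k) ⧸ U) ∈ MulAction.fixedPoints P ((n → k) ⧸ U) := by
    intro u
    show f u 0 = 0
    exact map_zero (f u)
  obtain ⟨b, hb, hb0⟩ := hP.exists_fixed_point_of_prime_dvd_card_of_fixed_point _ hcard h0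
  obtain ⟨v, rfl⟩ := Submodule.Quotient.mk_surjective U b
  refine ⟨v, fun hv => hb0 ((Submodule.Quotient.mk_eq_zero U).2 hv).symm, fun u hu => ?_⟩
  have h3 := hb ⟨u, hu⟩
  rw [hsmul] at h3
  exact (Submodule.Quotient.eq U).1 h3

/-- The upper central type chain. -/
def nextSub (P : Subgroup (GL n k)) (U : Submodule k (n → k)) : Submodule k (n → k) where
  carrier := {v | ∀ u ∈ P, (u : Matrix n n k).mulVec v - v ∈ U}
  add_mem' := by
    intro a b ha hb u hu
    have := U.add_mem (ha u hu) (hb u hu)
    rw [Matrix.mulVec_add]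
    convert! this using 1
    abel
  zero_mem' := by
    intro u hu
    simp
  smul_mem' := by
    intro c v hv u hu
    have := U.smul_mem c (hv u hu)
    rw [Matrix.mulVec_smul]
    rwa [smul_sub] at this

def chain (P : Subgroup (GL n k)) : ℕ → Submodule k (n → k)
  | 0 => ⊥
  | m + 1 => nextSub P (chain P m)

omit [Finite k] in
theorem chain_stable (P : Subgroup (GL n k)) (m : ℕ) :
    (∀ u ∈ P, ∀ v ∈ chain P m, (u : Matrix n n k).mulVec v ∈ chain P m) := by
  induction m with
  | zero =>
    intro u _ v hv
    rw [chain, Submodule.mem_bot] at hv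
    subst hv
    simp [chain]
  | succ m ih =>
    intro u hu v hv
    have hle : chain P m ≤ chain P (m + 1) := by
      intro v hv u hu
      exact (chain P m).sub_mem (ih u hu v hv) hv
    have h1 : (u : Matrix n n k).mulVec v = ((u : Matrix n n k).mulVec v - v) + v := by abel
    rw [h1]
    exact (chain P (m+1)).add_mem (hle (hv u hu)) hv

omit [Finite k] in
theorem chain_le_succ (P : Subgroup (GL n k)) (m : ℕ) : chain P m ≤ chain P (m + 1) := by
  intro v hv u hu
  exact (chain P m).sub_mem (chain_stable P m u hu v hv) hv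

omit [Finite k] in
theorem chain_mono (P : Subgroup (GL n k)) : Monotone (chain P) :=
  monotone_nat_of_le_succ (chain_le_succ P)

omit [Finite k] in
theorem chain_comm (P : Subgroup (GL n k)) (φ : Matrix n n k)
    (hφ : ∀ u ∈ P, (u : Matrix n n k) * φ = φ * u) (m : ℕ) :
    ∀ v ∈ chain P m, φ.mulVec v ∈ chain P m := by
  induction m with
  | zero =>
    intro v hv
    rw [chain, Submodule.mem_bot] at hv
    subst hv
    simp [chain]
  | succ m ih =>
    intro v hv u hu
    have h1 : (u : Matrix n n k).mulVec (φ.mulVec v) = φ.mulVec ((u : Matrix n n k).mulVec v) := by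
      rw [Matrix.mulVec_mulVec, hφ u hu, Matrix.mulVec_mulVec]
    rw [h1, ← Matrix.mulVec_sub]
    exact ih _ (hv u hu)

theorem exists_chain_eq_top (P : Subgroup (GL n k)) (hP : IsPGroup p P) :
    ∃ d, chain P d = ⊤ := by
  by_contra hcon
  push Not at hcon
  have hlt : ∀ m, chain P m < chain P (m + 1) := by
    intro m
    obtain ⟨v, hv, hv'⟩ := growth P hP (chain P m) (chain_stable P m) (hcon m)
    refine lt_of_le_of_ne (chain_le_succ P m) (fun h => hv ?_)
    rw [h]
    exact hv'
  have hrank : ∀ m, m ≤ finrank k (chain P m) := by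
    intro m
    induction m with
    | zero => exact Nat.zero_le _
    | succ m ih => exact Nat.succ_le_of_lt (lt_of_le_of_lt ih (Submodule.finrank_lt_finrank_of_lt (hlt m)))
  have h1 := hrank (finrank k (n → k) + 1)
  have h2 := Submodule.finrank_le (chain P (finrank k (n → k) + 1))
  omega

end growth

section basis

variable {k V : Type*} [Field k] [AddCommGroup V] [Module k V]

theorem exists_adapted_set (W : ℕ → Submodule k V) (hW0 : W 0 = ⊥) (hmono : Monotone W) (m : ℕ) :
    ∃ S : Set V, LinearIndepOn k id S ∧ ∀ i ≤ m, W i = Submodule.span k (S ∩ W i) := by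
  induction m with
  | zero =>
    refine ⟨∅, linearIndepOn_empty k id, fun i hi => ?_⟩
    have : i = 0 := by omega
    subst this
    simp [hW0]
  | succ m ih =>
    obtain ⟨S, hS, hSi⟩ := ih
    have hS0 : LinearIndepOn k id (S ∩ (W m : Set V)) := hS.mono Set.inter_subset_left
    have hsub : S ∩ (W m : Set V) ⊆ (W (m + 1) : Set V) :=
      fun v hv => hmono (Nat.le_succ m) hv.2
    obtain ⟨b, hb1, hb2, hb3, hb4⟩ := exists_linearIndepOn_id_extension hS0 hsub
    refine ⟨b, hb4, fun i hi => ?_⟩
    apply le_antisymm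
    · rcases Nat.lt_or_ge i (m + 1) with h | h
      · have hi' : i ≤ m := by omega
        conv_lhs => rw [hSi i hi']
        apply Submodule.span_mono
        intro v hv
        exact ⟨hb2 ⟨hv.1, hmono hi' hv.2⟩, hv.2⟩
      · have : i = m + 1 := by omega
        subst this
        have h1 : b ∩ (W (m + 1) : Set V) = b := Set.inter_eq_left.2 hb1
        rw [h1]
        exact hb3
    · rw [Submodule.span_le]
      exact Set.inter_subset_right

end basis

theorem exists_adapted {k n : Type*} [Field k] [Finite k] [Fintype n] [DecidableEq n] {p : ℕ}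
    [Fact p.Prime] [CharP k p] (P : Subgroup (GL n k)) (hP : IsPGroup p P) (φ : Matrix n n k)
    (hφ : ∀ u ∈ P, (u : Matrix n n k) * φ = φ * u) :
    ∃ (g : GL n k) (l : n → ℕ),
      (∀ u ∈ P, ∀ i j, l j ≤ l i →
        ((g⁻¹ * u * g : GL n k) : Matrix n n k) i j = (1 : Matrix n n k) i j) ∧
      (∀ i j, l j < l i →
        (((g⁻¹ : GL n k) : Matrix n n k) * φ * (g : Matrix n n k)) i j = 0) := by
  classical
  obtain ⟨d, hd⟩ := exists_chain_eq_top P hP
  obtain ⟨S, hS, hSi⟩ := exists_adapted_set (chain P) rfl (chain_mono P) d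
  have hspan : ⊤ ≤ Submodule.span k (Set.range ((↑) : S → (n → k))) := by
    rw [Subtype.range_coe]
    have := hSi d le_rfl
    rw [hd] at this
    rw [this]
    exact Submodule.span_mono Set.inter_subset_left
  let b₀ : Basis S k (n → k) := Basis.mk (v := ((↑) : S → (n → k))) hS hspan
  have : Finite S := Module.Finite.finite_basis b₀
  have : Fintype S := Fintype.ofFinite S
  have hcard : Fintype.card S = Fintype.card n := by
    rw [← Module.finrank_eq_card_basis b₀, Module.finrank_fintype_fun_eq_card]
  let e : S ≃ n := Fintype.equivOfCardEq hcard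
  let b : Basis n k (n → k) := b₀.reindex e
  have hb : ∀ j, b j = ((e.symm j : S) : n → k) := by
    intro j
    have h1 : b j = b₀ (e.symm j) := by simp [b]
    rw [h1]
    exact Basis.mk_apply (v := ((↑) : S → (n → k))) hS hspan (e.symm j)
  have hex : ∀ j, ∃ m, b j ∈ chain P m := fun j => ⟨d, by rw [hd]; trivial⟩
  let l : n → ℕ := fun j => Nat.find (hex j)
  have hl_mem : ∀ j, b j ∈ chain P (l j) := fun j => Nat.find_spec (hex j)
  have hl_le : ∀ j m, b j ∈ chain P m → l j ≤ m := fun j m h => Nat.find_min' (hex j) h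
  have hrepr : ∀ (m : ℕ) (v : n → k), m ≤ d → v ∈ chain P m → ∀ i, b.repr v i ≠ 0 → l i ≤ m := by
    intro m v hm hv i hi
    rw [hSi m hm] at hv
    have himg : S ∩ (chain P m : Set (n → k)) = b '' {j | b j ∈ chain P m} := by
      ext x
      constructor
      · rintro ⟨hx, hx'⟩
        refine ⟨e ⟨x, hx⟩, ?_, ?_⟩
        · show b (e ⟨x, hx⟩) ∈ chain P m
          rw [hb]
          simpa using hx'
        · rw [hb]
          simp
      · rintro ⟨j, hj, rfl⟩
        refine ⟨?_, hj⟩
        rw [hb]
        exact (e.symm j).2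
    rw [himg] at hv
    have h2 := (Basis.mem_span_image b).1 hv
    have h3 : i ∈ ((b.repr v).support : Set n) := by
      simpa using hi
    exact hl_le i m (h2 h3)
  have hl_d : ∀ j, l j ≤ d := fun j => hl_le j d (by rw [hd]; trivial)
  have hl_pos : ∀ j, 0 < l j := by
    intro j
    rcases Nat.eq_zero_or_pos (l j) with h | h
    · exfalso
      have h1 := hl_mem j
      rw [h] at h1
      have h2 : b j = 0 := by
        simpa [chain] using h1
      exact b.ne_zero j h2
    · exact h
  -- the base change matrix
  let c : Basis n k (n → k) := Pi.basisFun k n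
  let g : GL n k := ⟨c.toMatrix b, b.toMatrix c, Basis.toMatrix_mul_toMatrix_flip c b,
    Basis.toMatrix_mul_toMatrix_flip b c⟩
  have hg : ∀ M : Matrix n n k, ((g⁻¹ : GL n k) : Matrix n n k) * M * (g : Matrix n n k) =
      LinearMap.toMatrix b b (Matrix.toLin' M) := by
    intro M
    have h1 := basis_toMatrix_mul_linearMap_toMatrix_mul_basis_toMatrix (b := b) (b' := c)
      (c := b) (c' := c) (f := Matrix.toLin' M)
    rw [← h1]
    have h2 : LinearMap.toMatrix c c (Matrix.toLin' M) = M := by
      have : LinearMap.toMatrix c c = LinearMap.toMatrix' := LinearMap.toMatrix_eq_toMatrix'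
      rw [this, LinearMap.toMatrix'_toLin']
    rw [h2]
    rfl
  have happ : ∀ (M : Matrix n n k) (i j : n),
      (((g⁻¹ : GL n k) : Matrix n n k) * M * (g : Matrix n n k)) i j =
        b.repr (M.mulVec (b j)) i := by
    intro M i j
    rw [hg, LinearMap.toMatrix_apply, Matrix.toLin'_apply]
  refine ⟨g, l, ?_, ?_⟩
  · intro u hu i j hij
    have h1 : ((g⁻¹ * u * g : GL n k) : Matrix n n k) - 1 =
        ((g⁻¹ : GL n k) : Matrix n n k) * ((u : Matrix n n k) - 1) * (g : Matrix n n k) := by
      rw [mul_sub, sub_mul, mul_one]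
      congr 1
      have : ((g⁻¹ : GL n k) : Matrix n n k) * (g : Matrix n n k) = 1 := by
        rw [← Units.val_mul, inv_mul_cancel, Units.val_one]
      rw [this]
    have h2 : (((g⁻¹ * u * g : GL n k) : Matrix n n k) - 1) i j = 0 := by
      rw [h1, happ, Matrix.sub_mulVec, Matrix.one_mulVec]
      by_contra hne
      have h3 : (u : Matrix n n k).mulVec (b j) - b j ∈ chain P (l j - 1) := by
        have h4 := hl_mem j
        have h5 : l j = (l j - 1) + 1 := by have := hl_pos j; omega
        rw [h5] at h4
        exact h4 u hu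
      have h6 := hrepr (l j - 1) _ (by have := hl_d j; omega) h3 i hne
      have := hl_pos j
      omega
    rw [Matrix.sub_apply] at h2
    exact sub_eq_zero.1 h2
  · intro i j hij
    by_contra hne
    rw [happ] at hne
    have h3 : φ.mulVec (b j) ∈ chain P (l j) := chain_comm P φ hφ (l j) _ (hl_mem j)
    have h6 := hrepr (l j) _ (hl_d j) h3 i hne
    omega

end Pool.Agent.MP_fa0f6c_al
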