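import Mathlib

/-!
# From characters of the stabilisers to a cocycle on the action groupoid
-/

set_option autoImplicit false

namespace Pool.Agent.MP_fa0f6c_al

open MulAction

theorem exists_cocycle {Γ Ω T : Type*} [Group Γ] [MulAction Γ Ω] [CommGroup T]
    (A : Subgroup Γ) [A.Normal] (hA : ∀ a ∈ A, ∀ ω : Ω, a • ω = ω)
    (w : Ω → Γ → T) (hw : ∀ (g : Γ) (ω : Ω) (a : Γ), a ∈ A → w (g • ω) a = w ω (g⁻¹ * a * g))
    (hX : ∀ ω : Ω, ∃ X : stabilizer Γ ω →* T, ∀ (a : Γ) (_ : a ∈ A) (h : a ∈ stabilizer Γ ω),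
      X ⟨a, h⟩ = w ω a) :
    ∃ c : Ω → Γ → T, (∀ ω g h, c ω (g * h) = c ω g * c (g⁻¹ • ω) h) ∧
      (∀ ω, ∀ a ∈ A, c ω a = w ω a) := by
  classical
  choose X hX using hX
  let rep : Ω → Ω := fun ω => (Quotient.out (Quotient.mk (orbitRel Γ Ω) ω))
  have hrep : ∀ ω, ∃ t : Γ, t • rep ω = ω := by
    intro ω
    have h1 : (orbitRel Γ Ω) (rep ω) ω := Quotient.exact (Quotient.out_eq _)
    have h2 : (orbitRel Γ Ω) ω (rep ω) := (orbitRel Γ Ω).symm h1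
    rw [orbitRel_apply] at h2
    obtain ⟨t, ht⟩ := h2
    exact ⟨t, ht⟩
  choose t ht using hrep
  have hrep_smul : ∀ (g : Γ) (ω : Ω), rep (g • ω) = rep ω := by
    intro g ω
    have : (Quotient.mk (orbitRel Γ Ω) (g • ω)) = Quotient.mk (orbitRel Γ Ω) ω :=
      Quotient.sound (by
        show (orbitRel Γ Ω) (g • ω) ω
        rw [orbitRel_apply]
        exact mem_orbit _ _)
    simp only [rep, this]
  let Xt : Ω → Γ → T := fun ω h => if hh : h ∈ stabilizer Γ ω then X ω ⟨h, hh⟩ else 1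
  have Xt_mul : ∀ (ω : Ω) (g h : Γ), g ∈ stabilizer Γ ω → h ∈ stabilizer Γ ω →
      Xt ω (g * h) = Xt ω g * Xt ω h := by
    intro ω g h hg hh
    have hgh : g * h ∈ stabilizer Γ ω := mul_mem hg hh
    simp only [Xt, dif_pos hg, dif_pos hh, dif_pos hgh, ← map_mul]
    rfl
  have hmem : ∀ (ω : Ω) (g : Γ), (t ω)⁻¹ * g * t (g⁻¹ • ω) ∈ stabilizer Γ (rep ω) := by
    intro ω g
    rw [mem_stabilizer_iff, mul_smul, mul_smul]
    have h1 : t (g⁻¹ • ω) • rep ω = g⁻¹ • ω := by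
      conv_lhs => rw [← hrep_smul g⁻¹ ω]
      exact ht _
    rw [h1, smul_inv_smul, inv_smul_eq_iff]
    exact (ht ω).symm
  refine ⟨fun ω g => Xt (rep ω) ((t ω)⁻¹ * g * t (g⁻¹ • ω)), ?_, ?_⟩
  · intro ω g h
    show Xt (rep ω) ((t ω)⁻¹ * (g * h) * t ((g * h)⁻¹ • ω)) =
      Xt (rep ω) ((t ω)⁻¹ * g * t (g⁻¹ • ω)) *
        Xt (rep (g⁻¹ • ω)) ((t (g⁻¹ • ω))⁻¹ * h * t (h⁻¹ • (g⁻¹ • ω)))
    have h2 := hmem (g⁻¹ • ω) h
    rw [hrep_smul] at h2 ⊢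
    rw [← Xt_mul _ _ _ (hmem ω g) h2]
    congr 1
    rw [mul_inv_rev, mul_smul]
    group
  · intro ω a ha
    have h1 : a⁻¹ • ω = ω := hA _ (A.inv_mem ha) ω
    show Xt (rep ω) ((t ω)⁻¹ * a * t (a⁻¹ • ω)) = w ω a
    have h2 := hmem ω a
    rw [h1] at h2 ⊢
    have h3 : (t ω)⁻¹ * a * t ω ∈ A := by
      have := (inferInstance : A.Normal).conj_mem a ha (t ω)⁻¹
      simpa using this
    simp only [Xt, dif_pos h2]
    rw [hX (rep ω) _ h3 h2, ← hw (t ω) (rep ω) a ha, ht]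

end Pool.Agent.MP_fa0f6c_al
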