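import Mathlib

/-!
# Extending linear characters from a normal subgroup, via transfer

`G` finite, `P ≤ G` of index prime to `p`, `A ⊴ G` with `A ≤ P`, `f : P →* T` whose restriction to
`A` is `G`-invariant and killed by `p`.  Then `f|_A` extends to `G`.
-/

set_option autoImplicit false

namespace Pool.Agent.MP_fa0f6c_al

open Subgroup Subgroup.leftTransversals

theorem exists_extension_of_transfer {G T : Type*} [Group G] [Finite G] [CommGroup T]
    {p : ℕ} (hp : p.Prime) (P : Subgroup G) (hP : ¬ p ∣ P.index)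
    (A : Subgroup G) [A.Normal] (hAP : A ≤ P) (f : P →* T)
    (hf : ∀ (a : G) (ha : a ∈ A) (g : G) (h : g⁻¹ * a * g ∈ P), f ⟨g⁻¹ * a * g, h⟩ = f ⟨a, hAP ha⟩)
    (hfp : ∀ (a : G) (ha : a ∈ A), f ⟨a, hAP ha⟩ ^ p = 1) :
    ∃ χ : G →* T, ∀ (a : G) (ha : a ∈ A), χ a = f ⟨a, hAP ha⟩ := by
  classical
  set τ : G →* T := MonoidHom.transfer f with hτ
  have key : ∀ (a : G) (ha : a ∈ A), τ a = f ⟨a, hAP ha⟩ ^ P.index := by
    intro a ha
    let T₀ : P.LeftTransversal := default
    rw [hτ, MonoidHom.transfer_def f T₀ a]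
    unfold diff
    let _ := P.fintypeQuotientOfFiniteIndex
    have hterm : ∀ q : G ⧸ P,
        f ⟨(T₀.2.leftQuotientEquiv q : G)⁻¹ * ((a • T₀).2.leftQuotientEquiv q : G),
          QuotientGroup.leftRel_apply.mp <|
            Quotient.exact' (((T₀.2.leftQuotientEquiv).symm_apply_apply q).trans
              (((a • T₀).2.leftQuotientEquiv).symm_apply_apply q).symm)⟩ = f ⟨a, hAP ha⟩ := by
      intro q
      have hq : a⁻¹ • q = q := by
        induction q using QuotientGroup.induction_on with
        | H z =>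
          rw [MulAction.Quotient.smul_coe, QuotientGroup.eq]
          have : (a⁻¹ • z)⁻¹ * z = z⁻¹ * a * z := by simp [smul_eq_mul, mul_assoc]
          rw [this]
          apply hAP
          have := (inferInstance : A.Normal).conj_mem a ha z⁻¹
          simpa using this
      have h1 : ((a • T₀).2.leftQuotientEquiv q : G) = a * (T₀.2.leftQuotientEquiv q : G) := by
        rw [smul_apply_eq_smul_apply_inv_smul, hq, smul_eq_mul]
      have h2 : (T₀.2.leftQuotientEquiv q : G)⁻¹ * ((a • T₀).2.leftQuotientEquiv q : G)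
          = (T₀.2.leftQuotientEquiv q : G)⁻¹ * a * (T₀.2.leftQuotientEquiv q : G) := by
        rw [h1, mul_assoc]
      have h3 : (T₀.2.leftQuotientEquiv q : G)⁻¹ * a * (T₀.2.leftQuotientEquiv q : G) ∈ P := by
        apply hAP
        have := (inferInstance : A.Normal).conj_mem a ha (T₀.2.leftQuotientEquiv q : G)⁻¹
        simpa using this
      rw [← hf a ha (T₀.2.leftQuotientEquiv q : G) h3]
      congr 1
      exact Subtype.ext h2
    rw [Finset.prod_congr rfl (fun q _ => hterm q)]
    rw [Finset.prod_const, Finset.card_univ, ← Nat.card_eq_fintype_card]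
    rfl
  have hcop : Nat.Coprime P.index p := by
    rw [Nat.coprime_comm]
    exact (Nat.Prime.coprime_iff_not_dvd hp).2 hP
  obtain ⟨s, hs⟩ := Nat.exists_mul_mod_eq_one_of_coprime hcop hp.one_lt
  refine ⟨τ ^ s, fun a ha => ?_⟩
  rw [MonoidHom.pow_apply, key a ha, ← pow_mul]
  have h4 : P.index * s = p * (P.index * s / p) + 1 := by
    conv_lhs => rw [← Nat.div_add_mod (P.index * s) p, hs.2]
  rw [h4, pow_succ, pow_mul, hfp a ha, one_pow, one_mul]

end Pool.Agent.MP_fa0f6c_al
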