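import Mathlib
import Pool.Agent.Lib.MP_fa0f6c_al.Transfer
import Pool.Agent.Lib.MP_fa0f6c_al.Groupoid
import Pool.Agent.Lib.MP_fa0f6c_al.Adapted

/-!
# Extending characters of the congruence kernel of `GL_n` of a ring of length two
-/

set_option autoImplicit false

namespace Pool.Agent.MP_fa0f6c_al

open Matrix

/-- A ring `E` with a surjection onto a field `K` whose kernel is a copy of `K`. -/
structure LTD (E K : Type*) [CommRing E] [Field K] where
  κ : E →+* K
  ε : K →+ E
  surj : Function.Surjective κ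
  inj : Function.Injective ε
  κε : ∀ a, κ (ε a) = 0
  ker : ∀ x, κ x = 0 → ∃ a, ε a = x
  mul_ε : ∀ x a, x * ε a = ε (κ x * a)

namespace LTD

variable {E K n T : Type*} [CommRing E] [Field K] [Fintype n] [DecidableEq n] [CommGroup T]
  (D : LTD E K)

/-- reduction of matrices -/
abbrev κM : Matrix n n E →+* Matrix n n K := D.κ.mapMatrix

/-- inclusion of the kernel, matrices -/
abbrev εM : Matrix n n K →+ Matrix n n E := D.ε.mapMatrix

/-- reduction of the general linear group -/
abbrev κG : GL n E →* GL n K := Matrix.GeneralLinearGroup.map D.κ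

theorem coe_κG (h : GL n E) : ((D.κG h : GL n K) : Matrix n n K) = D.κM (h : Matrix n n E) := rfl

open Classical in
/-- a section of `ε` on the kernel of `κ` -/
noncomputable def η (x : E) : K := if h : D.κ x = 0 then (D.ker x h).choose else 0

theorem ε_η {x : E} (h : D.κ x = 0) : D.ε (D.η x) = x := by
  unfold η
  rw [dif_pos h]
  exact (D.ker x h).choose_spec

theorem η_ε (a : K) : D.η (D.ε a) = a := D.inj (D.ε_η (D.κε a))

theorem η_zero : D.η 0 = 0 := by
  have := D.η_ε 0
  rwa [map_zero] at this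

/-- matrix version of `η` -/
noncomputable def ηM (M : Matrix n n E) : Matrix n n K := fun i j => D.η (M i j)

omit [Fintype n] [DecidableEq n] in
theorem ηM_apply (M : Matrix n n E) (i j : n) : D.ηM M i j = D.η (M i j) := rfl

theorem εM_ηM {M : Matrix n n E} (h : D.κM M = 0) : D.εM (D.ηM M) = M := by
  ext i j
  have h1 : D.κ (M i j) = 0 := by
    have := congrFun (congrFun h i) j
    simpa using this
  exact D.ε_η h1

omit [Fintype n] [DecidableEq n] in
theorem ηM_εM (x : Matrix n n K) : D.ηM (D.εM x) = x := by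
  ext i j
  exact D.η_ε _

omit [Fintype n] [DecidableEq n] in
theorem εM_inj : Function.Injective (D.εM : Matrix n n K →+ Matrix n n E) := by
  intro x y h
  ext i j
  have := congrFun (congrFun h i) j
  exact D.inj this

theorem κM_εM (x : Matrix n n K) : D.κM (D.εM x) = 0 := by
  ext i j
  exact D.κε _

theorem mul_εM (M : Matrix n n E) (x : Matrix n n K) : M * D.εM x = D.εM (D.κM M * x) := by
  ext i j
  rw [Matrix.mul_apply]
  have : (D.εM (D.κM M * x)) i j = D.ε (∑ m, D.κ (M i m) * x m j) := rfl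
  rw [this, map_sum]
  refine Finset.sum_congr rfl fun m _ => ?_
  exact D.mul_ε _ _

theorem εM_mul (M : Matrix n n E) (x : Matrix n n K) : D.εM x * M = D.εM (x * D.κM M) := by
  ext i j
  rw [Matrix.mul_apply]
  have : (D.εM (x * D.κM M)) i j = D.ε (∑ m, x i m * D.κ (M m j)) := rfl
  rw [this, map_sum]
  refine Finset.sum_congr rfl fun m _ => ?_
  have := D.mul_ε (M m j) (x i m)
  rw [mul_comm (x i m), ← this, mul_comm]
  rfl

open Classical in
/-- a normalised section of `κ` -/
noncomputable def σ (a : K) : E := if a = 0 then 0 else if a = 1 then 1 else (D.surj a).choose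

theorem κ_σ (a : K) : D.κ (D.σ a) = a := by
  unfold σ
  split_ifs with h1 h2
  · rw [map_zero, h1]
  · rw [map_one, h2]
  · exact (D.surj a).choose_spec

theorem σ_zero : D.σ 0 = 0 := by simp [σ]

theorem σ_one : D.σ 1 = 1 := by simp [σ]

/-- matrix version of `σ` -/
noncomputable def σM (M : Matrix n n K) : Matrix n n E := fun i j => D.σ (M i j)

theorem κM_σM (M : Matrix n n K) : D.κM (D.σM M) = M := by
  ext i j
  exact D.κ_σ _

omit [Fintype n] in
theorem σM_one : D.σM (1 : Matrix n n K) = 1 := by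
  ext i j
  unfold σM
  by_cases h : i = j
  · subst h
    rw [Matrix.one_apply_eq, Matrix.one_apply_eq, D.σ_one]
  · rw [Matrix.one_apply_ne h, Matrix.one_apply_ne h, D.σ_zero]

/-- strictly upper triangular w.r.t. a level function -/
def Strict {R : Type*} [Zero R] (l : n → ℕ) (M : Matrix n n R) : Prop :=
  ∀ i j, l j ≤ l i → M i j = 0

/-- upper triangular w.r.t. a level function -/
def Up {R : Type*} [Zero R] (l : n → ℕ) (M : Matrix n n R) : Prop :=
  ∀ i j, l j < l i → M i j = 0

omit [DecidableEq n] in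
theorem up_mul_strict {R : Type*} [CommRing R] {l : n → ℕ} {A B : Matrix n n R}
    (hA : Up l A) (hB : Strict l B) : Strict l (A * B) := by
  intro i j hij
  rw [Matrix.mul_apply]
  refine Finset.sum_eq_zero fun m _ => ?_
  rcases lt_or_ge (l m) (l i) with h | h
  · rw [hA i m h, zero_mul]
  · rw [hB m j (le_trans hij h), mul_zero]

omit [DecidableEq n] in
theorem strict_mul_up {R : Type*} [CommRing R] {l : n → ℕ} {A B : Matrix n n R}
    (hA : Strict l A) (hB : Up l B) : Strict l (A * B) := by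
  intro i j hij
  rw [Matrix.mul_apply]
  refine Finset.sum_eq_zero fun m _ => ?_
  rcases lt_or_ge (l j) (l m) with h | h
  · rw [hB m j h, mul_zero]
  · rw [hA i m (le_trans h hij), zero_mul]

omit [Fintype n] [DecidableEq n] in
theorem Strict.up {R : Type*} [Zero R] {l : n → ℕ} {A : Matrix n n R} (hA : Strict l A) :
    Up l A := fun i j h => hA i j h.le

omit [DecidableEq n] in
theorem Strict.trace {R : Type*} [CommRing R] {l : n → ℕ} {A : Matrix n n R} (hA : Strict l A) :
    A.trace = 0 := by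
  unfold Matrix.trace
  refine Finset.sum_eq_zero fun m _ => ?_
  exact hA m m le_rfl

omit [Fintype n] in
theorem up_one {R : Type*} [CommRing R] (l : n → ℕ) : Up l (1 : Matrix n n R) := by
  intro i j h
  refine Matrix.one_apply_ne ?_
  rintro rfl
  exact lt_irrefl _ h

theorem exists_char_adapted (ψ : AddChar K T) (φ : Matrix n n K) (l : n → ℕ) (hφl : Up l φ)
    (P : Subgroup (GL n E)) (hcomm : ∀ h ∈ P, D.κM (h : Matrix n n E) * φ = φ * D.κM h)
    (hP : ∀ h ∈ P, ∀ i j, l j ≤ l i → D.κM (h : Matrix n n E) i j = (1 : Matrix n n K) i j) :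
    ∃ χ : P →* T, ∀ (h : GL n E) (hh : h ∈ P) (x : Matrix n n K),
      (h : Matrix n n E) = 1 + D.εM x → χ ⟨h, hh⟩ = ψ (trace (φ * x)) := by
  classical
  -- the defect
  let δ : GL n E → Matrix n n K := fun h =>
    D.ηM ((h : Matrix n n E) - D.σM (D.κM (h : Matrix n n E)))
  have hδ : ∀ h : GL n E, D.εM (δ h) = (h : Matrix n n E) - D.σM (D.κM (h : Matrix n n E)) := by
    intro h
    apply D.εM_ηM
    rw [map_sub, D.κM_σM, sub_self]
  let ω : Matrix n n K → Matrix n n K → Matrix n n K := fun u v =>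
    D.ηM (D.σM u * D.σM v - D.σM (u * v))
  have hω : ∀ u v : Matrix n n K, D.εM (ω u v) = D.σM u * D.σM v - D.σM (u * v) := by
    intro u v
    apply D.εM_ηM
    rw [map_sub, map_mul, D.κM_σM, D.κM_σM, D.κM_σM, sub_self]
  have hδmul : ∀ g h : GL n E, δ (g * h) =
      ω (D.κM (g : Matrix n n E)) (D.κM (h : Matrix n n E)) + D.κM (g : Matrix n n E) * δ h +
        δ g * D.κM (h : Matrix n n E) := by
    intro g h
    apply D.εM_inj
    rw [map_add, map_add, hδ, hω, ← D.εM_mul, hδ]
    have h1 : D.εM (D.κM (g : Matrix n n E) * δ h) =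
        D.σM (D.κM (g : Matrix n n E)) * D.εM (δ h) := by
      rw [D.mul_εM, D.κM_σM]
    rw [h1, hδ, Units.val_mul, map_mul]
    noncomm_ring
  -- unipotence
  have hSu : ∀ h ∈ P, Strict l (D.κM (h : Matrix n n E) - 1) := by
    intro h hh i j hij
    rw [Matrix.sub_apply, hP h hh i j hij, sub_self]
  have hUp : ∀ h ∈ P, Up l (D.κM (h : Matrix n n E)) := by
    intro h hh i j hij
    rw [hP h hh i j hij.le]
    exact up_one l i j hij
  have hσS : ∀ h ∈ P, Strict l (D.σM (D.κM (h : Matrix n n E)) - 1) := by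
    intro h hh i j hij
    rw [Matrix.sub_apply]
    have h1 : D.σM (D.κM (h : Matrix n n E)) i j = D.σM (1 : Matrix n n K) i j := by
      unfold σM
      rw [hP h hh i j hij]
    rw [h1, D.σM_one, sub_self]
  have hωS : ∀ g ∈ P, ∀ h ∈ P,
      Strict l (ω (D.κM (g : Matrix n n E)) (D.κM (h : Matrix n n E))) := by
    intro g hg h hh i j hij
    have h1 : Strict l (D.σM (D.κM (g : Matrix n n E)) * D.σM (D.κM (h : Matrix n n E)) -
        D.σM (D.κM (g : Matrix n n E) * D.κM (h : Matrix n n E))) := by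
      have hgh : g * h ∈ P := mul_mem hg hh
      have h2 := hσS _ hgh
      rw [Units.val_mul, map_mul] at h2
      have h3 := strict_mul_up (hσS g hg) ((hσS h hh).up)
      have h4 : D.σM (D.κM (g : Matrix n n E)) * D.σM (D.κM (h : Matrix n n E)) -
        D.σM (D.κM (g : Matrix n n E) * D.κM (h : Matrix n n E)) =
        (D.σM (D.κM (g : Matrix n n E)) - 1) + (D.σM (D.κM (h : Matrix n n E)) - 1) +
        (D.σM (D.κM (g : Matrix n n E)) - 1) * (D.σM (D.κM (h : Matrix n n E)) - 1) -
        (D.σM (D.κM (g : Matrix n n E) * D.κM (h : Matrix n n E)) - 1) := by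
        noncomm_ring
      rw [h4]
      intro i j hij
      rw [Matrix.sub_apply, Matrix.add_apply, Matrix.add_apply, hσS g hg i j hij,
        hσS h hh i j hij, h3 i j hij, h2 i j hij]
      simp
    show D.η _ = 0
    rw [h1 i j hij, D.η_zero]
  -- the character
  let f : GL n E → K := fun h => trace (φ * δ h * D.κM ((h⁻¹ : GL n E) : Matrix n n E))
  have hinv : ∀ h : GL n E, D.κM (h : Matrix n n E) * D.κM ((h⁻¹ : GL n E) : Matrix n n E) = 1 := by
    intro h
    rw [← map_mul, ← Units.val_mul, mul_inv_cancel, Units.val_one, map_one]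
  have hinv' : ∀ h : GL n E, D.κM ((h⁻¹ : GL n E) : Matrix n n E) * D.κM (h : Matrix n n E) = 1 := by
    intro h
    rw [← map_mul, ← Units.val_mul, inv_mul_cancel, Units.val_one, map_one]
  have hfmul : ∀ g ∈ P, ∀ h ∈ P, f (g * h) = f g + f h := by
    intro g hg h hh
    show trace (φ * δ (g * h) * D.κM (((g * h)⁻¹ : GL n E) : Matrix n n E)) = _
    rw [hδmul, mul_add, mul_add, add_mul, add_mul, trace_add, trace_add]
    have h1 : trace (φ * ω (D.κM (g : Matrix n n E)) (D.κM (h : Matrix n n E)) *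
        D.κM (((g * h)⁻¹ : GL n E) : Matrix n n E)) = 0 := by
      apply Strict.trace (l := l)
      exact strict_mul_up (up_mul_strict hφl (hωS g hg h hh)) (hUp _ (inv_mem (mul_mem hg hh)))
    have h2 : trace (φ * (D.κM (g : Matrix n n E) * δ h) *
        D.κM (((g * h)⁻¹ : GL n E) : Matrix n n E)) = f h := by
      rw [_root_.mul_inv_rev, Units.val_mul, map_mul, ← mul_assoc, ← mul_assoc, trace_mul_comm]
      show _ = trace (φ * δ h * D.κM ((h⁻¹ : GL n E) : Matrix n n E))
      congr 1
      rw [← hcomm g hg, ← mul_assoc, ← mul_assoc, ← mul_assoc, hinv', one_mul]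
    have h3 : trace (φ * (δ g * D.κM (h : Matrix n n E)) *
        D.κM (((g * h)⁻¹ : GL n E) : Matrix n n E)) = f g := by
      show _ = trace (φ * δ g * D.κM ((g⁻¹ : GL n E) : Matrix n n E))
      congr 1
      rw [_root_.mul_inv_rev, Units.val_mul, map_mul, ← mul_assoc, ← mul_assoc,
        mul_assoc (φ * δ g) (D.κM (h : Matrix n n E)), hinv, mul_one]
    rw [h1, h2, h3, zero_add, add_comm]
  refine ⟨{ toFun := fun h => ψ (f h), map_one' := ?_, map_mul' := ?_ }, ?_⟩
  · have h1 := hfmul 1 P.one_mem 1 P.one_mem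
    rw [mul_one] at h1
    have h2 : f 1 = 0 := by
      have : f 1 + 0 = f 1 + f 1 := by rw [add_zero]; exact h1
      exact (add_left_cancel this).symm
    show ψ (f 1) = 1
    rw [h2, AddChar.map_zero_eq_one]
  · intro a b
    show ψ (f ((a : GL n E) * (b : GL n E))) = _
    rw [hfmul a a.2 b b.2, AddChar.map_add_eq_mul]
  · intro h hh x hx
    show ψ (f h) = _
    congr 1
    show trace (φ * δ h * D.κM ((h⁻¹ : GL n E) : Matrix n n E)) = _
    have h1 : D.κM (h : Matrix n n E) = 1 := by
      rw [hx, map_add, map_one, D.κM_εM, add_zero]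
    have h2 : D.κM ((h⁻¹ : GL n E) : Matrix n n E) = 1 := by
      have := hinv h
      rwa [h1, one_mul] at this
    have h3 : δ h = x := by
      apply D.εM_inj
      rw [hδ, h1, D.σM_one, hx]
      abel
    rw [h2, h3, mul_one]

theorem isUnit_of_κ {x : E} (h : IsUnit (D.κ x)) : IsUnit x := by
  obtain ⟨y, hy⟩ := D.surj (↑(h.unit⁻¹) : K)
  have h1 : D.κ (x * y - 1) = 0 := by
    rw [map_sub, map_mul, hy, map_one, IsUnit.mul_val_inv, sub_self]
  obtain ⟨a, ha⟩ := D.ker _ h1
  have h2 : D.ε a * D.ε a = 0 := by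
    rw [D.mul_ε, D.κε, zero_mul, map_zero]
  have h3 : x * (y * (1 - D.ε a)) = 1 := by
    have h4 : x * y = 1 + D.ε a := by rw [ha]; ring
    calc x * (y * (1 - D.ε a)) = (x * y) * (1 - D.ε a) := by ring
      _ = 1 - D.ε a * D.ε a := by rw [h4]; ring
      _ = 1 := by rw [h2, sub_zero]
  exact IsUnit.of_mul_eq_one _ h3

theorem κG_surjective : Function.Surjective (D.κG : GL n E →* GL n K) := by
  intro g
  let M : Matrix n n E := D.σM (g : Matrix n n K)
  have hM : D.κM M = (g : Matrix n n K) := D.κM_σM _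
  have h1 : IsUnit M.det := by
    apply D.isUnit_of_κ
    have h2 : D.κ M.det = (D.κM M).det := by
      rw [RingHom.map_det]
    rw [h2, hM]
    exact (Matrix.isUnit_iff_isUnit_det _).1 g.isUnit
  have h2 : IsUnit M := (Matrix.isUnit_iff_isUnit_det _).2 h1
  refine ⟨h2.unit, ?_⟩
  apply Units.ext
  rw [D.coe_κG]
  exact hM

variable {p : ℕ}

theorem exists_char_pgroup [Finite K] [Fact p.Prime] [CharP K p] (ψ : AddChar K T)
    (φ : Matrix n n K) (P : Subgroup (GL n E)) (hPp : IsPGroup p P)
    (hcomm : ∀ h ∈ P, D.κM (h : Matrix n n E) * φ = φ * D.κM h) :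
    ∃ χ : P →* T, ∀ (h : GL n E) (hh : h ∈ P) (x : Matrix n n K),
      (h : Matrix n n E) = 1 + D.εM x → χ ⟨h, hh⟩ = ψ (trace (φ * x)) := by
  classical
  obtain ⟨g, l, hg1, hg2⟩ := exists_adapted (P.map (D.κG : GL n E →* GL n K))
    (hPp.map _) φ (by
      rintro u ⟨h, hh, rfl⟩
      exact hcomm h hh)
  obtain ⟨gt, hgt⟩ := D.κG_surjective g
  have hgM : D.κM (gt : Matrix n n E) = (g : Matrix n n K) := by
    rw [← D.coe_κG, hgt]
  have hgM' : D.κM ((gt⁻¹ : GL n E) : Matrix n n E) = ((g⁻¹ : GL n K) : Matrix n n K) := by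
    rw [← D.coe_κG, map_inv, hgt]
  have hgg : ((g⁻¹ : GL n K) : Matrix n n K) * (g : Matrix n n K) = 1 := by
    rw [← Units.val_mul, inv_mul_cancel, Units.val_one]
  have hgg' : (g : Matrix n n K) * ((g⁻¹ : GL n K) : Matrix n n K) = 1 := by
    rw [← Units.val_mul, mul_inv_cancel, Units.val_one]
  let c : GL n E →* GL n E := (MulAut.conj gt⁻¹).toMonoidHom
  have hc : ∀ h, c h = gt⁻¹ * h * gt := by
    intro h
    show gt⁻¹ * h * (gt⁻¹)⁻¹ = _
    rw [inv_inv]
  let φ' : Matrix n n K := ((g⁻¹ : GL n K) : Matrix n n K) * φ * (g : Matrix n n K)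
  have hκc : ∀ h : GL n E, D.κM ((c h : GL n E) : Matrix n n E) =
      ((g⁻¹ : GL n K) : Matrix n n K) * D.κM (h : Matrix n n E) * (g : Matrix n n K) := by
    intro h
    rw [hc, Units.val_mul, Units.val_mul, map_mul, map_mul, hgM, hgM']
  obtain ⟨χ, hχ⟩ := D.exists_char_adapted ψ φ' l hg2 (P.map c)
    (by
      rintro u ⟨h, hh, rfl⟩
      rw [hκc]
      show ((g⁻¹ : GL n K) : Matrix n n K) * D.κM (h : Matrix n n E) * (g : Matrix n n K) *
        (((g⁻¹ : GL n K) : Matrix n n K) * φ * (g : Matrix n n K)) =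
        (((g⁻¹ : GL n K) : Matrix n n K) * φ * (g : Matrix n n K)) *
        (((g⁻¹ : GL n K) : Matrix n n K) * D.κM (h : Matrix n n E) * (g : Matrix n n K))
      have e1 : ∀ A B : Matrix n n K, ((g⁻¹ : GL n K) : Matrix n n K) * A * (g : Matrix n n K) *
        (((g⁻¹ : GL n K) : Matrix n n K) * B * (g : Matrix n n K)) =
        ((g⁻¹ : GL n K) : Matrix n n K) * (A * B) * (g : Matrix n n K) := by
        intro A B
        calc ((g⁻¹ : GL n K) : Matrix n n K) * A * (g : Matrix n n K) *
            (((g⁻¹ : GL n K) : Matrix n n K) * B * (g : Matrix n n K))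
            = ((g⁻¹ : GL n K) : Matrix n n K) * A * ((g : Matrix n n K) *
            ((g⁻¹ : GL n K) : Matrix n n K)) * B * (g : Matrix n n K) := by noncomm_ring
          _ = _ := by rw [hgg']; noncomm_ring
      rw [e1, e1, hcomm h hh])
    (by
      rintro u ⟨h, hh, rfl⟩ i j hij
      rw [hκc]
      have := hg1 (D.κG h) ⟨h, hh, rfl⟩ i j hij
      rwa [Units.val_mul, Units.val_mul] at this)
  refine ⟨χ.comp (c.subgroupMap P), fun h hh x hx => ?_⟩
  have h1 : ((c h : GL n E) : Matrix n n E) =
      1 + D.εM (((g⁻¹ : GL n K) : Matrix n n K) * x * (g : Matrix n n K)) := by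
    rw [hc, Units.val_mul, Units.val_mul, hx, mul_add, add_mul, mul_one, D.mul_εM, D.εM_mul,
      hgM, hgM']
    congr 1
    rw [← Units.val_mul, inv_mul_cancel, Units.val_one]
  have h2 : (χ.comp (c.subgroupMap P)) ⟨h, hh⟩ =
      χ ⟨c h, Subgroup.mem_map_of_mem c hh⟩ := rfl
  rw [h2, hχ (c h) (Subgroup.mem_map_of_mem c hh) _ h1]
  congr 1
  show trace ((((g⁻¹ : GL n K) : Matrix n n K) * φ * (g : Matrix n n K)) *
    (((g⁻¹ : GL n K) : Matrix n n K) * x * (g : Matrix n n K))) = _
  have e2 : (((g⁻¹ : GL n K) : Matrix n n K) * φ * (g : Matrix n n K)) *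
    (((g⁻¹ : GL n K) : Matrix n n K) * x * (g : Matrix n n K)) =
    ((g⁻¹ : GL n K) : Matrix n n K) * (φ * ((g : Matrix n n K) *
    ((g⁻¹ : GL n K) : Matrix n n K)) * x * (g : Matrix n n K)) := by noncomm_ring
  rw [e2, hgg', mul_one, trace_mul_comm, mul_assoc (φ * x), hgg', mul_one]

/-- the conjugation action of `GL n E` on matrices over the residue field -/
@[reducible] def act : MulAction (GL n E) (Matrix n n K) where
  smul h φ := D.κM (h : Matrix n n E) * φ * D.κM ((h⁻¹ : GL n E) : Matrix n n E)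
  one_smul φ := by
    show D.κM ((1 : GL n E) : Matrix n n E) * φ * D.κM (((1 : GL n E)⁻¹ : GL n E) : Matrix n n E) = φ
    rw [inv_one, Units.val_one, map_one, one_mul, mul_one]
  mul_smul g h φ := by
    show D.κM ((g * h : GL n E) : Matrix n n E) * φ *
      D.κM (((g * h)⁻¹ : GL n E) : Matrix n n E) =
      D.κM (g : Matrix n n E) * (D.κM (h : Matrix n n E) * φ *
        D.κM ((h⁻¹ : GL n E) : Matrix n n E)) * D.κM ((g⁻¹ : GL n E) : Matrix n n E)
    rw [_root_.mul_inv_rev, Units.val_mul, Units.val_mul, map_mul, map_mul]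
    noncomm_ring

theorem coe_one_add_pow (h : GL n E) (x : Matrix n n K) (hx : (h : Matrix n n E) = 1 + D.εM x)
    (m : ℕ) : ((h ^ m : GL n E) : Matrix n n E) = 1 + D.εM (m • x) := by
  induction m with
  | zero => simp
  | succ m ih =>
    rw [pow_succ, Units.val_mul, ih, hx, add_mul, one_mul, mul_add, mul_one, D.mul_εM, D.κM_εM,
      zero_mul, map_zero, add_zero, add_smul, one_smul, map_add]
    abel

/-- The cocycle extending the characters `1 + ε x ↦ ψ (tr (φ x))`. -/
theorem exists_cocycle_GL [Finite E] [Finite K] [Fact p.Prime] [CharP K p] (ψ : AddChar K T) :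
    ∃ c : Matrix n n K → GL n E → T,
      (∀ φ g h, c φ (g * h) = c φ g *
        c (D.κM ((g⁻¹ : GL n E) : Matrix n n E) * φ * D.κM (g : Matrix n n E)) h) ∧
      (∀ (φ : Matrix n n K) (h : GL n E) (x : Matrix n n K),
        (h : Matrix n n E) = 1 + D.εM x → c φ h = ψ (trace (φ * x))) := by
  classical
  let _ := D.act (n := n)
  have hsmul : ∀ (g : GL n E) (φ : Matrix n n K), g • φ =
      D.κM (g : Matrix n n E) * φ * D.κM ((g⁻¹ : GL n E) : Matrix n n E) := fun g φ => rfl
  have hinv : ∀ h : GL n E, D.κM (h : Matrix n n E) * D.κM ((h⁻¹ : GL n E) : Matrix n n E) = 1 := by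
    intro h
    rw [← map_mul, ← Units.val_mul, mul_inv_cancel, Units.val_one, map_one]
  have hinv' : ∀ h : GL n E, D.κM ((h⁻¹ : GL n E) : Matrix n n E) * D.κM (h : Matrix n n E) = 1 := by
    intro h
    rw [← map_mul, ← Units.val_mul, inv_mul_cancel, Units.val_one, map_one]
  let A : Subgroup (GL n E) := (D.κG : GL n E →* GL n K).ker
  have hA : ∀ a ∈ A, D.κM (a : Matrix n n E) = 1 := by
    intro a ha
    have h1 : D.κG a = 1 := ha
    rw [← D.coe_κG, h1, Units.val_one]
  have hA' : ∀ a : GL n E, D.κM (a : Matrix n n E) = 1 → a ∈ A := by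
    intro a ha
    show D.κG a = 1
    apply Units.ext
    rw [D.coe_κG, ha, Units.val_one]
  have hAx : ∀ a ∈ A, (a : Matrix n n E) = 1 + D.εM (D.ηM ((a : Matrix n n E) - 1)) := by
    intro a ha
    rw [D.εM_ηM]
    · abel
    · rw [map_sub, hA a ha, map_one, sub_self]
  let w : Matrix n n K → GL n E → T := fun φ a =>
    ψ (trace (φ * D.ηM ((a : Matrix n n E) - 1)))
  have hw : ∀ (φ : Matrix n n K) (a : GL n E) (x : Matrix n n K),
      (a : Matrix n n E) = 1 + D.εM x → w φ a = ψ (trace (φ * x)) := by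
    intro φ a x hx
    show ψ (trace (φ * D.ηM ((a : Matrix n n E) - 1))) = _
    rw [hx, add_sub_cancel_left, D.ηM_εM]
  obtain ⟨c, hc1, hc2⟩ := exists_cocycle (Γ := GL n E) (Ω := Matrix n n K) A
    (by
      intro a ha φ
      rw [hsmul, hA a ha, hA a⁻¹ (inv_mem ha), one_mul, mul_one]) w
    (by
      intro g φ a ha
      have h1 := hAx a ha
      have h2 : ((g⁻¹ * a * g : GL n E) : Matrix n n E) = 1 + D.εM
          (D.κM ((g⁻¹ : GL n E) : Matrix n n E) * D.ηM ((a : Matrix n n E) - 1) *
            D.κM (g : Matrix n n E)) := by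
        rw [Units.val_mul, Units.val_mul]
        conv_lhs => rw [h1]
        rw [mul_add, add_mul, mul_one, D.mul_εM, D.εM_mul]
        congr 1
        rw [← Units.val_mul, inv_mul_cancel, Units.val_one]
      rw [hw _ _ _ h1, hw _ _ _ h2]
      congr 1
      rw [hsmul, ← mul_assoc, ← mul_assoc,
        trace_mul_comm (φ * D.κM ((g⁻¹ : GL n E) : Matrix n n E) * _)]
      congr 1
      noncomm_ring)
    (by
      intro φ
      let G := MulAction.stabilizer (GL n E) φ
      have hG : ∀ h ∈ G, D.κM (h : Matrix n n E) * φ = φ * D.κM (h : Matrix n n E) := by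
        intro h hh
        have h1 : D.κM (h : Matrix n n E) * φ * D.κM ((h⁻¹ : GL n E) : Matrix n n E) = φ := hh
        calc D.κM (h : Matrix n n E) * φ = D.κM (h : Matrix n n E) * φ *
              (D.κM ((h⁻¹ : GL n E) : Matrix n n E) * D.κM (h : Matrix n n E)) := by
                rw [hinv', mul_one]
          _ = (D.κM (h : Matrix n n E) * φ * D.κM ((h⁻¹ : GL n E) : Matrix n n E)) *
              D.κM (h : Matrix n n E) := by noncomm_ring
          _ = _ := by rw [h1]
      let A₀ : Subgroup G := A.subgroupOf G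
      have hA₀p : IsPGroup p A₀ := by
        intro a
        refine ⟨1, ?_⟩
        have ha : ((a : G) : GL n E) ∈ A := a.2
        have h1 := D.coe_one_add_pow _ _ (hAx _ ha) (p ^ 1)
        have h2 : (p ^ 1) • D.ηM ((((a : G) : GL n E) : Matrix n n E) - 1) = 0 := by
          ext i j
          rw [Matrix.smul_apply, pow_one, nsmul_eq_mul, CharP.cast_eq_zero, zero_mul]
          rfl
        rw [h2, map_zero, add_zero] at h1
        apply Subtype.ext
        apply Subtype.ext
        apply Units.ext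
        show ((((a : G) : GL n E) ^ p ^ 1 : GL n E) : Matrix n n E) = 1
        exact h1
      obtain ⟨Q, hQ⟩ := hA₀p.exists_le_sylow
      let P : Subgroup (GL n E) := (Q : Subgroup G).map G.subtype
      have hPp : IsPGroup p P := Q.2.map _
      obtain ⟨χ, hχ⟩ := D.exists_char_pgroup ψ φ P hPp (by
        rintro u ⟨h, hh, rfl⟩
        exact hG _ h.2)
      let f : (Q : Subgroup G) →* T := χ.comp (G.subtype.subgroupMap (Q : Subgroup G))
      have hf : ∀ (h : G) (hh : h ∈ (Q : Subgroup G)) (x : Matrix n n K),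
          ((h : GL n E) : Matrix n n E) = 1 + D.εM x → f ⟨h, hh⟩ = ψ (trace (φ * x)) := by
        intro h hh x hx
        exact hχ (h : GL n E) ⟨h, hh, rfl⟩ x hx
      obtain ⟨X, hX⟩ := exists_extension_of_transfer (p := p) Fact.out (Q : Subgroup G)
        Q.not_dvd_index A₀ hQ f
        (by
          intro a ha g h
          have h1 := hAx _ (show ((a : G) : GL n E) ∈ A from ha)
          have h2 : ((((g⁻¹ * a * g : G)) : GL n E) : Matrix n n E) = 1 + D.εM
              (D.κM (((g : GL n E)⁻¹ : GL n E) : Matrix n n E) *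
                D.ηM (((a : GL n E) : Matrix n n E) - 1) *
                D.κM ((g : GL n E) : Matrix n n E)) := by
            show (((g : GL n E)⁻¹ : GL n E) : Matrix n n E) * ((a : GL n E) : Matrix n n E) *
              ((g : GL n E) : Matrix n n E) = _
            conv_lhs => rw [h1]
            rw [mul_add, add_mul, mul_one, D.mul_εM, D.εM_mul]
            congr 1
            rw [← Units.val_mul, inv_mul_cancel, Units.val_one]
          rw [hf _ _ _ h1, hf _ _ _ h2]
          congr 1
          rw [← mul_assoc, trace_mul_comm, ← mul_assoc, ← mul_assoc, hG _ g.2,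
            mul_assoc φ, hinv, mul_one])
        (by
          intro a ha
          have h1 := hAx _ (show ((a : G) : GL n E) ∈ A from ha)
          rw [hf _ _ _ h1, ← AddChar.map_nsmul_eq_pow, nsmul_eq_mul, CharP.cast_eq_zero, zero_mul,
            AddChar.map_zero_eq_one])
      refine ⟨X, fun a ha h => ?_⟩
      have h1 := hX ⟨a, h⟩ (by exact ha)
      rw [h1, hf _ _ _ (hAx a ha)])
  refine ⟨c, ?_, ?_⟩
  · intro φ g h
    rw [hc1, hsmul, inv_inv]
  · intro φ h x hx
    have hh : h ∈ A := hA' h (by rw [hx, map_add, map_one, D.κM_εM, add_zero])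
    rw [hc2 φ h hh, hw φ h x hx]

end LTD

end Pool.Agent.MP_fa0f6c_al
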