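import Mathlib
import Pool.Agent.Lib.MP_fa0f6c_al.LengthTwo

/-!
# Two rings with a common quotient: the fibre product and its length-two quotient
-/

set_option autoImplicit false

namespace Pool.Agent.MP_fa0f6c_al

open Matrix

/-- Two rings `A`, `A'` (lengths `r + 1`) with common quotient `Q` (length `r`). -/
structure PairData (A A' Q K : Type*) [CommRing A] [CommRing A'] [CommRing Q] [Field K] where
  q : A →+* Q
  q' : A' →+* Q
  κ' : A' →+* K
  t : A
  t' : A'
  r : ℕ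
  hr : 1 ≤ r
  q_surj : Function.Surjective q
  q'_surj : Function.Surjective q'
  κ'_surj : Function.Surjective κ'
  q_unit : ∀ a, IsUnit (q a) → IsUnit a
  q'_unit : ∀ a, IsUnit (q' a) → IsUnit a
  κ'_unit : ∀ a, κ' a ≠ 0 → IsUnit a
  hqt : q t = q' t'
  hκt : κ' t' = 0
  tA : ∀ a, q a = 0 → ∃ b, a = t * b
  tA0 : ∀ a, t * a = 0 → q a = 0
  t'1 : ∀ b, κ' b = 0 → ∃ c, b = t' * c
  t'2 : ∀ b, q' b = 0 → ∃ c, b = t' ^ r * c
  q't'r : q' (t' ^ r) = 0
  t'3 : ∀ b, t' ^ r * b = 0 ↔ κ' b = 0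
  t'4 : ∀ b, q' b = 0 → t' * b = 0

namespace PairData

variable {A A' Q K : Type*} [CommRing A] [CommRing A'] [CommRing Q] [Field K]
  (P : PairData A A' Q K)

/-- the fibre product -/
def S : Subring (A × A') :=
  RingHom.eqLocus (P.q.comp (RingHom.fst A A')) (P.q'.comp (RingHom.snd A A'))

theorem mem_S {x : A × A'} : x ∈ P.S ↔ P.q x.1 = P.q' x.2 := Iff.rfl

def α : P.S →+* A := (RingHom.fst A A').comp P.S.subtype
def β : P.S →+* A' := (RingHom.snd A A').comp P.S.subtype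
def κS : P.S →+* K := P.κ'.comp P.β

theorem α_apply (s : P.S) : P.α s = s.1.1 := rfl
theorem β_apply (s : P.S) : P.β s = s.1.2 := rfl
theorem κS_apply (s : P.S) : P.κS s = P.κ' s.1.2 := rfl

theorem α_surj : Function.Surjective P.α := by
  intro a
  obtain ⟨b, hb⟩ := P.q'_surj (P.q a)
  exact ⟨⟨(a, b), hb.symm⟩, rfl⟩

theorem β_surj : Function.Surjective P.β := by
  intro b
  obtain ⟨a, ha⟩ := P.q_surj (P.q' b)
  exact ⟨⟨(a, b), ha⟩, rfl⟩

theorem κS_surj : Function.Surjective P.κS := P.κ'_surj.comp P.β_surj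

theorem isUnit_S {s : P.S} (h1 : IsUnit s.1.1) (h2 : IsUnit s.1.2) : IsUnit s := by
  obtain ⟨a', ha'⟩ := h1.exists_right_inv
  obtain ⟨b', hb'⟩ := h2.exists_right_inv
  have hmem : ((a', b') : A × A') ∈ P.S := by
    rw [mem_S]
    have e1 : P.q s.1.1 * P.q a' = 1 := by rw [← map_mul, ha', map_one]
    have e2 : P.q' s.1.2 * P.q' b' = 1 := by rw [← map_mul, hb', map_one]
    have e3 : P.q s.1.1 = P.q' s.1.2 := s.2
    calc P.q a' = (P.q' s.1.2 * P.q' b') * P.q a' := by rw [e2, one_mul]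
      _ = (P.q s.1.1 * P.q a') * P.q' b' := by rw [e3]; ring
      _ = P.q' b' := by rw [e1, one_mul]
  refine IsUnit.of_mul_eq_one ⟨(a', b'), hmem⟩ ?_
  apply Subtype.ext
  exact Prod.ext ha' hb'

theorem isUnit_of_β {s : P.S} (h : IsUnit s.1.2) : IsUnit s := by
  refine P.isUnit_S (P.q_unit _ ?_) h
  have e3 : P.q s.1.1 = P.q' s.1.2 := s.2
  rw [e3]
  exact h.map P.q'

theorem isUnit_of_α {s : P.S} (h : IsUnit s.1.1) : IsUnit s := by
  refine P.isUnit_S h (P.q'_unit _ ?_)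
  have e3 : P.q s.1.1 = P.q' s.1.2 := s.2
  rw [← e3]
  exact h.map P.q

theorem isUnit_of_κS {s : P.S} (h : P.κS s ≠ 0) : IsUnit s :=
  P.isUnit_of_β (P.κ'_unit _ h)

/-- the common uniformiser -/
def tS : P.S := ⟨(P.t, P.t'), P.hqt⟩

/-- inclusion of the kernel of `A' → Q` -/
noncomputable def j' : K →+ A' where
  toFun w := P.t' ^ P.r * (P.κ'_surj w).choose
  map_zero' := by
    rw [P.t'3]
    exact (P.κ'_surj 0).choose_spec
  map_add' v w := by
    have h : P.t' ^ P.r * ((P.κ'_surj (v + w)).choose - (P.κ'_surj v).choose -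
        (P.κ'_surj w).choose) = 0 := by
      rw [P.t'3, map_sub, map_sub, (P.κ'_surj (v + w)).choose_spec, (P.κ'_surj v).choose_spec,
        (P.κ'_surj w).choose_spec]
      ring
    linear_combination h

theorem j'_κ' (b : A') : P.j' (P.κ' b) = P.t' ^ P.r * b := by
  have h : P.t' ^ P.r * ((P.κ'_surj (P.κ' b)).choose - b) = 0 := by
    rw [P.t'3, map_sub, (P.κ'_surj (P.κ' b)).choose_spec, sub_self]
  have : P.j' (P.κ' b) = P.t' ^ P.r * (P.κ'_surj (P.κ' b)).choose := rfl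
  rw [this]
  linear_combination h

theorem j'_inj : Function.Injective P.j' := by
  rw [injective_iff_map_eq_zero]
  intro w hw
  obtain ⟨b, rfl⟩ := P.κ'_surj w
  rw [j'_κ', P.t'3] at hw
  exact hw

theorem mul_j' (b : A') (w : K) : b * P.j' w = P.j' (P.κ' b * w) := by
  obtain ⟨c, rfl⟩ := P.κ'_surj w
  rw [← map_mul, j'_κ', j'_κ']
  ring

theorem q'_j' (w : K) : P.q' (P.j' w) = 0 := by
  obtain ⟨c, rfl⟩ := P.κ'_surj w
  rw [j'_κ', map_mul, P.q't'r, zero_mul]

theorem exists_j' {b : A'} (h : P.q' b = 0) : ∃ w, P.j' w = b := by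
  obtain ⟨c, rfl⟩ := P.t'2 b h
  exact ⟨P.κ' c, P.j'_κ' c⟩

theorem κ'_j' (w : K) : P.κ' (P.j' w) = 0 := by
  obtain ⟨c, rfl⟩ := P.κ'_surj w
  rw [j'_κ', map_mul, map_pow, P.hκt, zero_pow (by have := P.hr; omega), zero_mul]

/-- the element `(0, j' w)` of the fibre product -/
noncomputable def jS : K →+ P.S where
  toFun w := ⟨(0, P.j' w), by rw [mem_S, map_zero, q'_j']⟩
  map_zero' := by
    apply Subtype.ext
    simp
  map_add' v w := by
    apply Subtype.ext
    show ((0 : A), P.j' (v + w)) = ((0 : A), P.j' v) + ((0 : A), P.j' w)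
    rw [map_add, Prod.mk_add_mk, add_zero]

theorem jS_fst (w : K) : (P.jS w).1.1 = 0 := rfl
theorem jS_snd (w : K) : (P.jS w).1.2 = P.j' w := rfl

/-- the length two quotient -/
abbrev E : Type _ := P.S ⧸ Ideal.span {P.tS}

theorem κS_tS : P.κS P.tS = 0 := P.hκt

/-- The length-two datum. -/
noncomputable def ltd : LTD P.E K where
  κ := Ideal.Quotient.lift _ P.κS (by
    intro a ha
    obtain ⟨b, rfl⟩ := Ideal.mem_span_singleton'.1 ha
    rw [map_mul, P.κS_tS, mul_zero])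
  ε := (Ideal.Quotient.mk (Ideal.span {P.tS})).toAddMonoidHom.comp P.jS
  surj := by
    intro a
    obtain ⟨s, rfl⟩ := P.κS_surj a
    exact ⟨Ideal.Quotient.mk _ s, rfl⟩
  inj := by
    rw [injective_iff_map_eq_zero]
    intro w hw
    have h1 : Ideal.Quotient.mk (Ideal.span {P.tS}) (P.jS w) = 0 := hw
    rw [Ideal.Quotient.eq_zero_iff_mem] at h1
    obtain ⟨s, hs⟩ := Ideal.mem_span_singleton'.1 h1
    have h2 : P.t * s.1.1 = 0 := by
      have : (s * P.tS).1.1 = (P.jS w).1.1 := by rw [hs]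
      rw [P.jS_fst] at this
      rw [mul_comm]
      exact this
    have h3 : P.t' * s.1.2 = P.j' w := by
      have : (s * P.tS).1.2 = (P.jS w).1.2 := by rw [hs]
      rw [P.jS_snd] at this
      rw [mul_comm]
      exact this
    have h4 : P.q s.1.1 = 0 := P.tA0 _ h2
    have h5 : P.q' s.1.2 = 0 := by
      have e3 : P.q s.1.1 = P.q' s.1.2 := s.2
      rw [← e3, h4]
    rw [P.t'4 _ h5] at h3
    exact P.j'_inj (by rw [← h3, map_zero])
  κε := by
    intro a
    show P.κS (P.jS a) = 0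
    rw [κS_apply, jS_snd, κ'_j']
  ker := by
    intro x hx
    obtain ⟨s, rfl⟩ := Ideal.Quotient.mk_surjective x
    have h1 : P.κ' s.1.2 = 0 := hx
    obtain ⟨c, hc⟩ := P.t'1 _ h1
    obtain ⟨a₀, ha₀⟩ := P.q_surj (P.q' c)
    have e3 : P.q s.1.1 = P.q' s.1.2 := s.2
    have h2 : P.q (s.1.1 - P.t * a₀) = 0 := by
      rw [map_sub, map_mul, ha₀, e3, hc, map_mul, P.hqt, sub_self]
    obtain ⟨a₁, ha₁⟩ := P.tA _ h2
    have h3 : s.1.1 = P.t * (a₀ + a₁) := by linear_combination ha₁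
    obtain ⟨b₁, hb₁⟩ := P.q'_surj (P.q (a₀ + a₁))
    have h4 : P.q' (s.1.2 - P.t' * b₁) = 0 := by
      rw [map_sub, map_mul, hb₁, ← e3, h3, map_mul, P.hqt, sub_self]
    obtain ⟨w, hw⟩ := P.exists_j' h4
    refine ⟨w, ?_⟩
    show Ideal.Quotient.mk (Ideal.span {P.tS}) (P.jS w) = Ideal.Quotient.mk _ s
    rw [eq_comm, Ideal.Quotient.mk_eq_mk_iff_sub_mem, Ideal.mem_span_singleton']
    refine ⟨⟨(a₀ + a₁, b₁), hb₁.symm⟩, ?_⟩
    apply Subtype.ext
    apply Prod.ext
    · show (a₀ + a₁) * P.t = s.1.1 - 0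
      rw [h3]; ring
    · show b₁ * P.t' = s.1.2 - P.j' w
      rw [hw]; ring
  mul_ε := by
    intro x a
    obtain ⟨s, rfl⟩ := Ideal.Quotient.mk_surjective x
    show Ideal.Quotient.mk (Ideal.span {P.tS}) s * Ideal.Quotient.mk _ (P.jS a) =
      Ideal.Quotient.mk _ (P.jS (P.κS s * a))
    rw [← map_mul]
    congr 1
    apply Subtype.ext
    apply Prod.ext
    · show s.1.1 * 0 = 0
      rw [mul_zero]
    · show s.1.2 * P.j' a = P.j' (P.κ' s.1.2 * a)
      rw [mul_j']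

/-- the projection to the length two quotient -/
noncomputable abbrev ρ : P.S →+* P.E := Ideal.Quotient.mk (Ideal.span {P.tS})

theorem ltd_κ_ρ (s : P.S) : P.ltd.κ (P.ρ s) = P.κS s := rfl

theorem ltd_ε (w : K) : P.ltd.ε w = P.ρ (P.jS w) := rfl

theorem exists_snd_zero (w : K) : ∃ s : P.S, P.β s = 0 ∧ P.ρ s = - P.ltd.ε w := by
  obtain ⟨b, hb⟩ := P.κ'_surj w
  obtain ⟨v, hv⟩ := P.β_surj b
  refine ⟨P.tS ^ P.r * v - P.jS w, ?_, ?_⟩
  · rw [map_sub, map_mul, map_pow, hv]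
    show P.t' ^ P.r * b - P.j' w = 0
    rw [← hb, j'_κ', sub_self]
  · rw [map_sub, map_mul, map_pow, ltd_ε]
    have h1 : P.ρ P.tS = 0 := by
      rw [Ideal.Quotient.eq_zero_iff_mem]
      exact Ideal.mem_span_singleton_self _
    rw [h1, zero_pow (by have := P.hr; omega), zero_mul, zero_sub]

end PairData

/-- lifting invertible matrices along a surjective local homomorphism -/
theorem gl_map_surjective {n R S : Type*} [Fintype n] [DecidableEq n] [CommRing R] [CommRing S]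
    (f : R →+* S) (hf : Function.Surjective f) (hu : ∀ a, IsUnit (f a) → IsUnit a) :
    Function.Surjective (Matrix.GeneralLinearGroup.map (n := n) f) := by
  intro g
  choose σ hσ using hf
  let M : Matrix n n R := fun i j => σ ((g : Matrix n n S) i j)
  have hM : f.mapMatrix M = (g : Matrix n n S) := by
    ext i j
    exact hσ _
  have h1 : IsUnit M.det := by
    apply hu
    rw [RingHom.map_det, hM]
    exact (Matrix.isUnit_iff_isUnit_det _).1 g.isUnit
  have h2 : IsUnit M := (Matrix.isUnit_iff_isUnit_det _).2 h1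
  refine ⟨h2.unit, ?_⟩
  apply Units.ext
  exact hM

end Pool.Agent.MP_fa0f6c_al
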