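import Mathlib

/-!
# The twisted comparison map of two group algebras

`Γ` surjects onto `G` and `G'`; both are extensions of a common quotient by the abelian group `V`.
A cocycle `c` on the action groupoid of `Γ` on the characters of `V` produces a surjective algebra
homomorphism `ℂ[G] → ℂ[G']`.
-/

set_option autoImplicit false

namespace Pool.Agent.MP_fa0f6c_al

open Finset

section Twist

variable {G G' Γ Ω V B : Type*} [Group G] [Group G'] [Group Γ] [Fintype Ω]
  [AddCommGroup V] [Fintype V] [MulAction Γ Ω] [MulAction Γ V] [Ring B] [Algebra ℂ B]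

/-- the idempotent attached to the character `w ω` -/
noncomputable def idem (w : Ω → AddChar V ℂ) (b : Multiplicative V →* B) (ω : Ω) : B :=
  (Fintype.card V : ℂ)⁻¹ • ∑ x : V, w ω x • b (Multiplicative.ofAdd x)

omit [Fintype Ω] in
theorem b_mul_idem (w : Ω → AddChar V ℂ) (b : Multiplicative V →* B) (ω : Ω) (y : V) :
    b (Multiplicative.ofAdd y) * idem w b ω = w ω (-y) • idem w b ω := by
  unfold idem
  rw [mul_smul_comm, smul_comm, Finset.mul_sum]
  congr 1
  rw [Finset.smul_sum]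
  refine Fintype.sum_equiv (Equiv.addLeft y) _ _ fun x => ?_
  rw [mul_smul_comm, ← map_mul, smul_smul, ← AddChar.map_add_eq_mul, ← ofAdd_add]
  simp

omit [Fintype Ω] in
theorem idem_mul_b (w : Ω → AddChar V ℂ) (b : Multiplicative V →* B) (ω : Ω) (y : V) :
    idem w b ω * b (Multiplicative.ofAdd y) = w ω (-y) • idem w b ω := by
  rw [← b_mul_idem]
  unfold idem
  rw [mul_smul_comm, smul_mul_assoc, Finset.mul_sum, Finset.sum_mul]
  congr 1
  refine Finset.sum_congr rfl fun x _ => ?_
  rw [mul_smul_comm, smul_mul_assoc, ← map_mul b, ← map_mul b,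
    mul_comm (Multiplicative.ofAdd x) (Multiplicative.ofAdd y)]

omit [Fintype Ω] in
open Classical in
theorem idem_mul_idem (w : Ω → AddChar V ℂ) (b : Multiplicative V →* B)
    (hO : ∀ ω ω' : Ω, ω ≠ ω' → ∑ x : V, w ω x * w ω' (-x) = 0) (ω ω' : Ω) :
    idem w b ω * idem w b ω' = if ω = ω' then idem w b ω' else 0 := by
  have h1 : idem w b ω * idem w b ω' =
      ((Fintype.card V : ℂ)⁻¹ * ∑ x : V, w ω x * w ω' (-x)) • idem w b ω' := by
    conv_lhs => rw [idem]
    rw [smul_mul_assoc, Finset.sum_mul, mul_smul, Finset.sum_smul]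
    congr 1
    refine Finset.sum_congr rfl fun x _ => ?_
    rw [smul_mul_assoc, b_mul_idem, smul_smul]
  rw [h1]
  split_ifs with h
  · subst h
    have h2 : ∀ x : V, w ω x * w ω (-x) = 1 := by
      intro x
      rw [← AddChar.map_add_eq_mul, add_neg_cancel, AddChar.map_zero_eq_one]
    simp only [h2, Finset.sum_const, Finset.card_univ, nsmul_eq_mul, mul_one]
    rw [inv_mul_cancel₀, one_smul]
    exact Nat.cast_ne_zero.2 Fintype.card_ne_zero
  · rw [hO ω ω' h, mul_zero, zero_smul]

theorem sum_idem (w : Ω → AddChar V ℂ) (b : Multiplicative V →* B)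
    (hcard : Fintype.card Ω = Fintype.card V)
    (hO : ∀ x : V, x ≠ 0 → ∑ ω : Ω, w ω x = 0) : ∑ ω : Ω, idem w b ω = 1 := by
  classical
  unfold idem
  rw [← Finset.smul_sum, Finset.sum_comm]
  have h1 : ∀ x : V, ∑ ω : Ω, w ω x • b (Multiplicative.ofAdd x) =
      if x = 0 then (Fintype.card V : ℂ) • (1 : B) else 0 := by
    intro x
    rw [← Finset.sum_smul]
    split_ifs with h
    · subst h
      simp only [AddChar.map_zero_eq_one, Finset.sum_const, Finset.card_univ, hcard,
        nsmul_eq_mul, mul_one, ofAdd_zero, map_one]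
    · rw [hO x h, zero_smul]
  rw [Finset.sum_congr rfl fun x _ => h1 x, Finset.sum_ite_eq' Finset.univ (0 : V)]
  simp only [Finset.mem_univ, if_true]
  rw [smul_smul, inv_mul_cancel₀, one_smul]
  exact Nat.cast_ne_zero.2 Fintype.card_ne_zero

theorem exists_twist (w : Ω → AddChar V ℂ) (hcard : Fintype.card Ω = Fintype.card V)
    (hO1 : ∀ ω ω' : Ω, ω ≠ ω' → ∑ x : V, w ω x * w ω' (-x) = 0)
    (hO2 : ∀ x : V, x ≠ 0 → ∑ ω : Ω, w ω x = 0)
    (hw : ∀ (s : Γ) (ω : Ω) (x : V), w (s • ω) (s • x) = w ω x)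
    (α : Γ →* G) (hα : Function.Surjective α)
    (β : Γ →* B) (i : Multiplicative V →* B)
    (hconj : ∀ (s : Γ) (x : V), β s * i (Multiplicative.ofAdd x) =
      i (Multiplicative.ofAdd (s • x)) * β s)
    (c : Ω → Γ → ℂ) (hc : ∀ ω s t, c ω (s * t) = c ω s * c (s⁻¹ • ω) t)
    (hc0 : ∀ ω s, c ω s ≠ 0)
    (hk1 : ∀ s : Γ, α s = 1 → ∃ x : V, β s = i (Multiplicative.ofAdd x) ∧ ∀ ω, c ω s = w ω x)
    (hk2 : ∀ x : V, ∃ s : Γ, β s = 1 ∧ ∀ ω, c ω s = w ω (-x)) :
    ∃ Θ : MonoidAlgebra ℂ G →ₐ[ℂ] B, ∀ s : Γ, β s ∈ Θ.range := by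
  classical
  set e : Ω → B := idem w i with he
  have hee : ∀ ω ω', e ω * e ω' = if ω = ω' then e ω' else 0 := idem_mul_idem w i hO1
  have hes : ∑ ω, e ω = 1 := sum_idem w i hcard hO2
  have hconj_e : ∀ (s : Γ) (ω : Ω), β s * e ω = e (s • ω) * β s := by
    intro s ω
    simp only [he, idem]
    rw [mul_smul_comm, smul_mul_assoc, Finset.mul_sum, Finset.sum_mul]
    congr 1
    refine Fintype.sum_equiv (MulAction.toPerm s) _ _ fun x => ?_
    rw [MulAction.toPerm_apply, hw, mul_smul_comm, smul_mul_assoc, hconj]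
  have hc1 : ∀ ω, c ω 1 = 1 := by
    intro ω
    have h1 := hc ω 1 1
    rw [mul_one, inv_one, one_smul] at h1
    have h2 : c ω 1 * (c ω 1 - 1) = 0 := by
      rw [mul_sub, ← h1, mul_one, sub_self]
    rcases mul_eq_zero.1 h2 with h | h
    · exact absurd h (hc0 ω 1)
    · exact sub_eq_zero.1 h
  -- the twisted hom
  let θ : Γ →* B :=
    { toFun := fun s => ∑ ω, c ω s • (e ω * β s)
      map_one' := by
        simp only [hc1, one_smul, map_one, mul_one]
        exact hes
      map_mul' := by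
        intro s t
        rw [Finset.sum_mul_sum]
        have h1 : ∀ ω ω', (c ω s • (e ω * β s)) * (c ω' t • (e ω' * β t)) =
            if ω = s • ω' then c (s • ω') (s * t) • (e (s • ω') * β (s * t)) else 0 := by
          intro ω ω'
          have h2 : (e ω * β s) * (e ω' * β t) = (e ω * e (s • ω')) * β (s * t) := by
            rw [mul_assoc, ← mul_assoc (β s), hconj_e, map_mul]
            simp only [mul_assoc]
          rw [smul_mul_smul_comm, h2, hee]
          split_ifs with h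
          · subst h
            rw [hc, inv_smul_smul]
          · rw [zero_mul, smul_zero]
        rw [Finset.sum_congr rfl fun ω _ => Finset.sum_congr rfl fun ω' _ => h1 ω ω',
          Finset.sum_comm]
        simp only [Finset.sum_ite_eq', Finset.mem_univ, if_true]
        exact (Fintype.sum_equiv (MulAction.toPerm s) _ _ fun ω' => rfl).symm }
  have hθ : ∀ s, θ s = ∑ ω, c ω s • (e ω * β s) := fun s => rfl
  have hker : α.ker ≤ θ.toHomUnits.ker := by
    intro s hs
    obtain ⟨x, hx1, hx2⟩ := hk1 s hs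
    rw [MonoidHom.mem_ker]
    apply Units.ext
    rw [MonoidHom.coe_toHomUnits, hθ, Units.val_one, ← hes]
    refine Finset.sum_congr rfl fun ω _ => ?_
    rw [hx1, hx2, idem_mul_b, smul_smul, ← AddChar.map_add_eq_mul, add_neg_cancel,
      AddChar.map_zero_eq_one, one_smul]
  let θG : G →* Bˣ := α.liftOfSurjective hα ⟨θ.toHomUnits, hker⟩
  have hθG : ∀ s, θG (α s) = θ.toHomUnits s := fun s =>
    MonoidHom.liftOfRightInverse_comp_apply α _ _ _ s
  let Θ : MonoidAlgebra ℂ G →ₐ[ℂ] B := MonoidAlgebra.lift ℂ B G ((Units.coeHom B).comp θG)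
  have hΘ : ∀ s, Θ (MonoidAlgebra.of ℂ G (α s)) = θ s := by
    intro s
    show MonoidAlgebra.lift ℂ B G ((Units.coeHom B).comp θG) _ = _
    rw [MonoidAlgebra.lift_of, MonoidHom.comp_apply, hθG]
    rfl
  have hθr : ∀ s, θ s ∈ Θ.range := fun s => ⟨_, hΘ s⟩
  have hir : ∀ x : V, i (Multiplicative.ofAdd x) ∈ Θ.range := by
    intro x
    obtain ⟨s, hs1, hs2⟩ := hk2 x
    have h1 : θ s = i (Multiplicative.ofAdd x) := by
      rw [hθ, hs1]
      have h2 : ∀ ω, c ω s • (e ω * 1) = e ω * i (Multiplicative.ofAdd x) := by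
        intro ω
        rw [mul_one, hs2, he, idem_mul_b]
      rw [Finset.sum_congr rfl fun ω _ => h2 ω, ← Finset.sum_mul, hes, one_mul]
    rw [← h1]
    exact hθr s
  have her : ∀ ω, e ω ∈ Θ.range := by
    intro ω
    simp only [he, idem]
    refine Subalgebra.smul_mem _ (Subalgebra.sum_mem _ fun x _ => Subalgebra.smul_mem _ (hir x) _) _
  refine ⟨Θ, fun s => ?_⟩
  have h1 : ∀ ω, e ω * β s ∈ Θ.range := by
    intro ω
    have h2 : e ω * θ s = c ω s • (e ω * β s) := by
      rw [hθ, Finset.mul_sum, Finset.sum_eq_single ω]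
      · rw [mul_smul_comm, ← mul_assoc, hee, if_pos rfl]
      · intro ω' _ hne
        rw [mul_smul_comm, ← mul_assoc, hee, if_neg (Ne.symm hne), zero_mul, smul_zero]
      · intro h
        exact absurd (Finset.mem_univ _) h
    have h3 : e ω * β s = (c ω s)⁻¹ • (e ω * θ s) := by
      rw [h2, smul_smul, inv_mul_cancel₀ (hc0 ω s), one_smul]
    rw [h3]
    exact Subalgebra.smul_mem _ (Subalgebra.mul_mem _ (her ω) (hθr s)) _
  have h4 : β s = ∑ ω, e ω * β s := by
    rw [← Finset.sum_mul, hes, one_mul]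
  rw [h4]
  exact Subalgebra.sum_mem _ fun ω _ => h1 ω

end Twist

end Pool.Agent.MP_fa0f6c_al
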