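import Mathlib
import Pool.Agent.Lib.MP_fa0f6c_al.Pair
import Pool.Agent.Lib.MP_fa0f6c_al.Twist

/-!
# The surjection `ℂ[GL_n(A)] → ℂ[GL_n(A')]` for two rings with a common quotient
-/

set_option autoImplicit false

namespace Pool.Agent.MP_fa0f6c_al

open Matrix

/-- the additive character `x ↦ ψ (tr (φ x))` of the matrix ring -/
noncomputable def trChar {K n : Type*} [Field K] [Fintype n] [DecidableEq n]
    (ψ : AddChar K ℂ) (φ : Matrix n n K) : AddChar (Matrix n n K) ℂ where
  toFun x := ψ (trace (φ * x))
  map_zero_eq_one' := by rw [mul_zero, trace_zero, AddChar.map_zero_eq_one]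
  map_add_eq_mul' x y := by rw [mul_add, trace_add, AddChar.map_add_eq_mul]

theorem trChar_apply {K n : Type*} [Field K] [Fintype n] [DecidableEq n]
    (ψ : AddChar K ℂ) (φ x : Matrix n n K) : trChar ψ φ x = ψ (trace (φ * x)) := rfl

theorem sum_trChar {K n : Type*} [Field K] [Fintype K] [Fintype n] [DecidableEq n]
    [Fintype (Matrix n n K)]
    (ψ : AddChar K ℂ) (hψ : ψ.IsPrimitive) (φ : Matrix n n K) (hφ : φ ≠ 0) :
    ∑ x, trChar ψ φ x = 0 := by
  classical
  rw [AddChar.sum_eq_zero_iff_ne_zero]
  intro h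
  have h1 : ∃ i j, φ i j ≠ 0 := by
    by_contra hcon
    push Not at hcon
    exact hφ (by ext i j; exact hcon i j)
  obtain ⟨i, j, hij⟩ := h1
  have h2 : ψ.mulShift (φ i j) ≠ 1 := hψ hij
  apply h2
  ext a
  rw [AddChar.mulShift_apply, AddChar.one_apply]
  have h3 : trChar ψ φ (Matrix.single j i a) = 1 := by
    rw [h]
    rfl
  rw [trChar_apply] at h3
  have h4 : trace (φ * Matrix.single j i a) = φ i j * a := by
    rw [Matrix.trace_mul_single, op_smul_eq_mul]
  rw [h4] at h3
  exact h3

namespace PairData

variable {A A' Q K n : Type*} [CommRing A] [CommRing A'] [CommRing Q] [Field K]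
  [Fintype n] [DecidableEq n] (P : PairData A A' Q K)

/-- `j'` on matrices -/
noncomputable abbrev jM : Matrix n n K →+ Matrix n n A' := P.j'.mapMatrix

theorem mul_jM (M : Matrix n n A') (x : Matrix n n K) :
    M * P.jM x = P.jM (P.κ'.mapMatrix M * x) := by
  ext i j
  rw [Matrix.mul_apply]
  have : (P.jM (P.κ'.mapMatrix M * x)) i j = P.j' (∑ m, P.κ' (M i m) * x m j) := rfl
  rw [this, map_sum]
  refine Finset.sum_congr rfl fun m _ => ?_
  exact P.mul_j' _ _

theorem jM_mul (M : Matrix n n A') (x : Matrix n n K) :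
    P.jM x * M = P.jM (x * P.κ'.mapMatrix M) := by
  ext i j
  rw [Matrix.mul_apply]
  have : (P.jM (x * P.κ'.mapMatrix M)) i j = P.j' (∑ m, x i m * P.κ' (M m j)) := rfl
  rw [this, map_sum]
  refine Finset.sum_congr rfl fun m _ => ?_
  have := P.mul_j' (M m j) (x i m)
  rw [mul_comm (x i m), ← this, mul_comm]
  rfl

theorem jM_mul_jM (x y : Matrix n n K) : P.jM x * P.jM y = 0 := by
  rw [mul_jM]
  have : P.κ'.mapMatrix (P.jM x) = (0 : Matrix n n K) := by
    ext i j
    exact P.κ'_j' _
  rw [this, zero_mul, map_zero]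

/-- The congruence subgroup of `GL_n A'`. -/
noncomputable def iG : Multiplicative (Matrix n n K) →* GL n A' where
  toFun x :=
    { val := 1 + P.jM x.toAdd
      inv := 1 - P.jM x.toAdd
      val_inv := by
        have := P.jM_mul_jM x.toAdd x.toAdd
        calc (1 + P.jM x.toAdd) * (1 - P.jM x.toAdd) = 1 - P.jM x.toAdd * P.jM x.toAdd := by
              noncomm_ring
          _ = 1 := by rw [this, sub_zero]
      inv_val := by
        have := P.jM_mul_jM x.toAdd x.toAdd
        calc (1 - P.jM x.toAdd) * (1 + P.jM x.toAdd) = 1 - P.jM x.toAdd * P.jM x.toAdd := by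
              noncomm_ring
          _ = 1 := by rw [this, sub_zero] }
  map_one' := by
    apply Units.ext
    show 1 + P.jM (Multiplicative.toAdd 1) = 1
    rw [toAdd_one, map_zero, add_zero]
  map_mul' x y := by
    apply Units.ext
    show 1 + P.jM (Multiplicative.toAdd (x * y)) =
      (1 + P.jM x.toAdd) * (1 + P.jM y.toAdd)
    have := P.jM_mul_jM x.toAdd y.toAdd
    rw [toAdd_mul, map_add, mul_add, add_mul, add_mul, this]
    simp only [mul_one, one_mul, add_zero]
    abel

theorem coe_iG (x : Matrix n n K) :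
    ((P.iG (Multiplicative.ofAdd x) : GL n A') : Matrix n n A') = 1 + P.jM x := rfl

include P in
theorem exists_surjection [Finite A] [Finite A'] [Finite K] :
    ∃ Θ : MonoidAlgebra ℂ (GL n A) →ₐ[ℂ] MonoidAlgebra ℂ (GL n A'), Function.Surjective Θ := by
  classical
  have := Fintype.ofFinite K
  have : Fintype (Matrix n n K) := inferInstance
  obtain ⟨p, hp⟩ := CharP.exists K
  have hpp : Fact p.Prime := ⟨CharP.char_is_prime K p⟩
  have hES : Finite P.S := Subtype.finite
  have hE : Finite P.E :=
    Finite.of_surjective (Ideal.Quotient.mk (Ideal.span {P.tS})) Ideal.Quotient.mk_surjective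
  -- the additive character
  let ψ : AddChar K ℂ := AddChar.FiniteField.primitiveChar_to_Complex K
  have hψ : ψ.IsPrimitive := AddChar.FiniteField.primitiveChar_to_Complex_isPrimitive K
  let ψu : AddChar K ℂˣ :=
    { toFun := fun a => ψ.toMonoidHom.toHomUnits (Multiplicative.ofAdd a)
      map_zero_eq_one' := by rw [ofAdd_zero, map_one]
      map_add_eq_mul' := fun a b => by rw [ofAdd_add, map_mul] }
  have hψu : ∀ a, ((ψu a : ℂˣ) : ℂ) = ψ a := fun a => rfl
  obtain ⟨c₀, hc₀1, hc₀2⟩ := P.ltd.exists_cocycle_GL (n := n) (p := p) ψu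
  -- the groups
  let Γ := GL n P.S
  let αG : Γ →* GL n A := Matrix.GeneralLinearGroup.map P.α
  let βG : Γ →* GL n A' := Matrix.GeneralLinearGroup.map P.β
  let ρG : Γ →* GL n P.E := Matrix.GeneralLinearGroup.map P.ρ
  have hαG : Function.Surjective αG :=
    gl_map_surjective P.α P.α_surj (fun a h => P.isUnit_of_α h)
  have hβG : Function.Surjective βG :=
    gl_map_surjective P.β P.β_surj (fun a h => P.isUnit_of_β h)
  let κM : Matrix n n P.S →+* Matrix n n K := P.κS.mapMatrix
  have hκinv : ∀ h : Γ, κM (h : Matrix n n P.S) * κM ((h⁻¹ : Γ) : Matrix n n P.S) = 1 := by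
    intro h
    rw [← map_mul, ← Units.val_mul, mul_inv_cancel, Units.val_one, map_one]
  have hκinv' : ∀ h : Γ, κM ((h⁻¹ : Γ) : Matrix n n P.S) * κM (h : Matrix n n P.S) = 1 := by
    intro h
    rw [← map_mul, ← Units.val_mul, inv_mul_cancel, Units.val_one, map_one]
  let _ : MulAction Γ (Matrix n n K) :=
    { smul := fun h φ => κM (h : Matrix n n P.S) * φ * κM ((h⁻¹ : Γ) : Matrix n n P.S)
      one_smul := by
        intro φ
        show κM ((1 : Γ) : Matrix n n P.S) * φ * κM (((1 : Γ)⁻¹ : Γ) : Matrix n n P.S) = φ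
        rw [inv_one, Units.val_one, map_one, one_mul, mul_one]
      mul_smul := by
        intro g h φ
        show κM ((g * h : Γ) : Matrix n n P.S) * φ *
          κM (((g * h)⁻¹ : Γ) : Matrix n n P.S) =
          κM (g : Matrix n n P.S) * (κM (h : Matrix n n P.S) * φ *
            κM ((h⁻¹ : Γ) : Matrix n n P.S)) * κM ((g⁻¹ : Γ) : Matrix n n P.S)
        rw [_root_.mul_inv_rev, Units.val_mul, Units.val_mul, map_mul, map_mul]
        noncomm_ring }
  have hsmul : ∀ (g : Γ) (φ : Matrix n n K), g • φ =
      κM (g : Matrix n n P.S) * φ * κM ((g⁻¹ : Γ) : Matrix n n P.S) := fun g φ => rfl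
  let c : Matrix n n K → Γ → ℂ := fun φ s => ((c₀ φ (ρG s) : ℂˣ) : ℂ)
  have hρκ : ∀ s : Γ, P.ltd.κM ((ρG s : GL n P.E) : Matrix n n P.E) =
      κM (s : Matrix n n P.S) := fun s => rfl
  obtain ⟨Θ, hΘ⟩ := exists_twist (Γ := Γ) (G := GL n A) (B := MonoidAlgebra ℂ (GL n A'))
    (Ω := Matrix n n K) (V := Matrix n n K)
    (trChar ψ) rfl
    (by
      intro φ φ' hne
      have h1 : ∀ x : Matrix n n K, trChar ψ φ x * trChar ψ φ' (-x) = trChar ψ (φ - φ') x := by
        intro x
        rw [trChar_apply, trChar_apply, trChar_apply, ← AddChar.map_add_eq_mul, ← trace_add]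
        congr 2
        noncomm_ring
      rw [Finset.sum_congr rfl fun x _ => h1 x]
      exact sum_trChar ψ hψ _ (sub_ne_zero.2 hne))
    (by
      intro x hx
      have h1 : ∀ φ : Matrix n n K, trChar ψ φ x = trChar ψ x φ := by
        intro φ
        rw [trChar_apply, trChar_apply, trace_mul_comm]
      rw [Finset.sum_congr rfl fun φ _ => h1 φ]
      exact sum_trChar ψ hψ _ hx)
    (by
      intro s φ x
      rw [trChar_apply, trChar_apply, hsmul, hsmul]
      congr 1
      have h1 : κM (s : Matrix n n P.S) * φ * κM ((s⁻¹ : Γ) : Matrix n n P.S) *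
          (κM (s : Matrix n n P.S) * x * κM ((s⁻¹ : Γ) : Matrix n n P.S)) =
          κM (s : Matrix n n P.S) * (φ * (κM ((s⁻¹ : Γ) : Matrix n n P.S) *
          κM (s : Matrix n n P.S)) * x * κM ((s⁻¹ : Γ) : Matrix n n P.S)) := by
        noncomm_ring
      rw [h1, hκinv', mul_one, trace_mul_comm, mul_assoc (φ * x), hκinv', mul_one])
    αG hαG ((MonoidAlgebra.of ℂ (GL n A')).comp βG) ((MonoidAlgebra.of ℂ (GL n A')).comp P.iG)
    (by
      intro s x
      show MonoidAlgebra.of ℂ (GL n A') (βG s) *
        MonoidAlgebra.of ℂ (GL n A') (P.iG (Multiplicative.ofAdd x)) =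
        MonoidAlgebra.of ℂ (GL n A') (P.iG (Multiplicative.ofAdd (s • x))) *
        MonoidAlgebra.of ℂ (GL n A') (βG s)
      rw [← map_mul, ← map_mul]
      congr 1
      apply Units.ext
      rw [Units.val_mul, Units.val_mul, coe_iG, coe_iG, mul_add, add_mul, mul_one, one_mul,
        mul_jM, jM_mul]
      congr 2
      rw [hsmul]
      have h1 : P.κ'.mapMatrix ((βG s : GL n A') : Matrix n n A') = κM (s : Matrix n n P.S) := rfl
      rw [h1, mul_assoc, hκinv', mul_one])
    c
    (by
      intro φ s t
      show ((c₀ φ (ρG (s * t)) : ℂˣ) : ℂ) = ((c₀ φ (ρG s) : ℂˣ) : ℂ) *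
        ((c₀ (s⁻¹ • φ) (ρG t) : ℂˣ) : ℂ)
      rw [map_mul, hc₀1, Units.val_mul]
      have h1 : P.ltd.κM (((ρG s)⁻¹ : GL n P.E) : Matrix n n P.E) * φ *
          P.ltd.κM ((ρG s : GL n P.E) : Matrix n n P.E) = s⁻¹ • φ := by
        rw [hsmul, inv_inv, ← map_inv, hρκ, hρκ]
      rw [h1])
    (by
      intro φ s
      exact Units.ne_zero _)
    (by
      intro s hs
      -- entries of `s - 1` have first component zero
      have h1 : ∀ i j, P.q' ((s : Matrix n n P.S) i j - (1 : Matrix n n P.S) i j).1.2 = 0 := by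
        intro i j
        have e3 := ((s : Matrix n n P.S) i j - (1 : Matrix n n P.S) i j).2
        rw [mem_S] at e3
        rw [← e3]
        have h2 : P.α ((s : Matrix n n P.S) i j) = (1 : Matrix n n A) i j := by
          have h3 : ((αG s : GL n A) : Matrix n n A) i j = (1 : Matrix n n A) i j := by
            rw [hs]; rfl
          exact h3
        have h4 : P.α ((1 : Matrix n n P.S) i j) = (1 : Matrix n n A) i j := by
          have h3 : P.α.mapMatrix (1 : Matrix n n P.S) i j = (1 : Matrix n n A) i j := by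
            rw [map_one]
          exact h3
        have h5 : P.α ((s : Matrix n n P.S) i j - (1 : Matrix n n P.S) i j) = 0 := by
          rw [map_sub, h2, h4, sub_self]
        rw [α_apply] at h5
        rw [h5, map_zero]
      choose x hx using fun i j => P.exists_j' (h1 i j)
      have h6 : (s : Matrix n n P.S) = 1 + Matrix.of fun i j => P.jS (x i j) := by
        apply Matrix.ext
        intro i j
        have h7 : (s : Matrix n n P.S) i j - (1 : Matrix n n P.S) i j = P.jS (x i j) := by
          apply Subtype.ext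
          apply Prod.ext
          · have h2 : P.α ((s : Matrix n n P.S) i j) = (1 : Matrix n n A) i j := by
              have h3 : ((αG s : GL n A) : Matrix n n A) i j = (1 : Matrix n n A) i j := by
                rw [hs]; rfl
              exact h3
            have h4 : P.α ((1 : Matrix n n P.S) i j) = (1 : Matrix n n A) i j := by
              have h3 : P.α.mapMatrix (1 : Matrix n n P.S) i j = (1 : Matrix n n A) i j := by
                rw [map_one]
              exact h3
            have h5 : P.α ((s : Matrix n n P.S) i j - (1 : Matrix n n P.S) i j) = 0 := by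
              rw [map_sub, h2, h4, sub_self]
            exact h5
          · exact (hx i j).symm
        rw [Matrix.add_apply, Matrix.of_apply, ← h7]
        abel
      refine ⟨Matrix.of x, ?_, ?_⟩
      · show MonoidAlgebra.of ℂ (GL n A') (βG s) =
          MonoidAlgebra.of ℂ (GL n A') (P.iG (Multiplicative.ofAdd (Matrix.of x)))
        congr 1
        apply Units.ext
        rw [coe_iG]
        have h8 : ((βG s : GL n A') : Matrix n n A') = P.β.mapMatrix (s : Matrix n n P.S) := rfl
        rw [h8, h6, map_add, map_one]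
        rfl
      · intro φ
        show ((c₀ φ (ρG s) : ℂˣ) : ℂ) = _
        have h8 : ((ρG s : GL n P.E) : Matrix n n P.E) = P.ρ.mapMatrix (s : Matrix n n P.S) := rfl
        have h9 : ((ρG s : GL n P.E) : Matrix n n P.E) = 1 + P.ltd.εM (Matrix.of x) := by
          rw [h8, h6, map_add, map_one]
          rfl
        rw [hc₀2 φ _ _ h9, hψu, trChar_apply])
    (by
      intro x
      choose m hm1 hm2 using fun i j => P.exists_snd_zero (x i j)
      let M : Matrix n n P.S := Matrix.of m
      have hβM : P.β.mapMatrix M = (0 : Matrix n n A') := by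
        ext i j
        exact hm1 i j
      have hκM : P.κS.mapMatrix M = (0 : Matrix n n K) := by
        ext i j
        show P.κ' (P.β (m i j)) = 0
        rw [hm1, map_zero]
      have h1 : IsUnit (1 + M).det := by
        apply P.isUnit_of_κS
        rw [RingHom.map_det, map_add, map_one, hκM, add_zero, det_one]
        exact one_ne_zero
      have h2 : IsUnit (1 + M) := (Matrix.isUnit_iff_isUnit_det _).2 h1
      refine ⟨h2.unit, ?_, ?_⟩
      · show MonoidAlgebra.of ℂ (GL n A') (βG h2.unit) = 1
        have h3 : βG h2.unit = 1 := by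
          apply Units.ext
          show P.β.mapMatrix (1 + M) = 1
          rw [map_add, map_one, hβM, add_zero]
        rw [h3, map_one]
      · intro φ
        show ((c₀ φ (ρG h2.unit) : ℂˣ) : ℂ) = _
        have h9 : ((ρG h2.unit : GL n P.E) : Matrix n n P.E) = 1 + P.ltd.εM (-x) := by
          show P.ρ.mapMatrix (1 + M) = _
          rw [map_add, map_one, map_neg]
          congr 1
          ext i j
          exact hm2 i j
        rw [hc₀2 φ _ _ h9, hψu, trChar_apply])
  refine ⟨Θ, fun y => ?_⟩
  have hr : ∀ g : GL n A', MonoidAlgebra.of ℂ (GL n A') g ∈ Θ.range := by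
    intro g
    obtain ⟨s, rfl⟩ := hβG g
    exact hΘ s
  have : y ∈ Θ.range := by
    induction y using MonoidAlgebra.induction_on with
    | of m => exact hr m
    | add x y hx hy => exact Subalgebra.add_mem _ hx hy
    | smul r x hx => exact Subalgebra.smul_mem _ hx r
  exact this

end PairData

end Pool.Agent.MP_fa0f6c_al
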