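import Mathlib
import Pool.Agent.Lib.MP_fa0f6c_al.Surj

/-!
# `ℂ[GL_N(𝔬_{r+1})]` depends only on the ring `𝔬_r`
-/

set_option autoImplicit false

namespace Pool.Agent.MP_fa0f6c_al

open Matrix IsLocalRing

section DVR

variable {R : Type*} [CommRing R] [IsDomain R] [IsDiscreteValuationRing R]

theorem mem_pow_iff {ϖ : R} (h : Irreducible ϖ) (n : ℕ) (a : R) :
    a ∈ maximalIdeal R ^ n ↔ ϖ ^ n ∣ a := by
  rw [h.maximalIdeal_eq, Ideal.span_singleton_pow, Ideal.mem_span_singleton]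

theorem mk_eq_zero_iff {ϖ : R} (h : Irreducible ϖ) (n : ℕ) (a : R) :
    Ideal.Quotient.mk (maximalIdeal R ^ n) a = 0 ↔ ϖ ^ n ∣ a := by
  rw [Ideal.Quotient.eq_zero_iff_mem, mem_pow_iff h]

theorem dvd_of_not_isUnit {ϖ : R} (h : Irreducible ϖ) {a : R} (ha : ¬ IsUnit a) : ϖ ∣ a := by
  have h1 : a ∈ maximalIdeal R := (mem_maximalIdeal a).2 ha
  rwa [h.maximalIdeal_eq, Ideal.mem_span_singleton] at h1

theorem nontrivial_quot {r : ℕ} (hr : 1 ≤ r) : Nontrivial (R ⧸ maximalIdeal R ^ r) := by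
  apply Ideal.Quotient.nontrivial_iff.2
  intro h
  have h1 : (maximalIdeal R) ^ r ≤ maximalIdeal R := Ideal.pow_le_self (by omega)
  rw [h] at h1
  exact (maximalIdeal.isMaximal R).ne_top (top_le_iff.1 h1)

theorem isUnit_of_mk {r : ℕ} (hr : 1 ≤ r) {a : R}
    (ha : IsUnit (Ideal.Quotient.mk (maximalIdeal R ^ r) a)) : IsUnit a := by
  have := nontrivial_quot (R := R) hr
  by_contra hcon
  obtain ⟨ϖ, hϖ⟩ := IsDiscreteValuationRing.exists_irreducible R
  obtain ⟨b, rfl⟩ := dvd_of_not_isUnit hϖ hcon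
  have h1 : (Ideal.Quotient.mk (maximalIdeal R ^ r) (ϖ * b)) ^ r = 0 := by
    rw [← map_pow, mk_eq_zero_iff hϖ, mul_pow]
    exact dvd_mul_right _ _
  exact not_isUnit_zero (h1 ▸ ha.pow r)

/-- a non-unit of `R / 𝔪^r` is divisible by the class of a uniformiser -/
theorem mk_dvd_of_not_isUnit {r : ℕ} {ϖ : R} (h : Irreducible ϖ)
    {x : R ⧸ maximalIdeal R ^ r} (hx : ¬ IsUnit x) :
    Ideal.Quotient.mk (maximalIdeal R ^ r) ϖ ∣ x := by
  obtain ⟨a, rfl⟩ := Ideal.Quotient.mk_surjective x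
  have ha : ¬ IsUnit a := fun h => hx (h.map _)
  exact map_dvd _ (dvd_of_not_isUnit h ha)

theorem mk_not_isUnit {r : ℕ} (hr : 1 ≤ r) {ϖ : R} (h : Irreducible ϖ) :
    ¬ IsUnit (Ideal.Quotient.mk (maximalIdeal R ^ r) ϖ) := fun hu =>
  h.not_isUnit (isUnit_of_mk hr hu)

theorem finite_quot [Finite (ResidueField R)] (n : ℕ) : Finite (R ⧸ maximalIdeal R ^ n) := by
  have : Finite (R ⧸ maximalIdeal R) := inferInstanceAs (Finite (ResidueField R))
  exact Ideal.finite_quotient_pow (IsNoetherian.noetherian _) n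

end DVR

section Pair

variable {R R' : Type*} [CommRing R] [IsDomain R] [IsDiscreteValuationRing R]
  [CommRing R'] [IsDomain R'] [IsDiscreteValuationRing R']

theorem exists_compatible_uniformisers {r : ℕ} (hr : 1 ≤ r)
    (e : (R ⧸ maximalIdeal R ^ r) ≃+* (R' ⧸ maximalIdeal R' ^ r)) :
    ∃ (ϖ : R) (ϖ' : R'), Irreducible ϖ ∧ Irreducible ϖ' ∧
      e (Ideal.Quotient.mk _ ϖ) = Ideal.Quotient.mk _ ϖ' := by
  have := nontrivial_quot (R := R') hr
  obtain ⟨ϖ, hϖ⟩ := IsDiscreteValuationRing.exists_irreducible R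
  obtain ⟨ϖ₀, hϖ₀⟩ := IsDiscreteValuationRing.exists_irreducible R'
  set x := e (Ideal.Quotient.mk (maximalIdeal R ^ r) ϖ) with hx
  set y := Ideal.Quotient.mk (maximalIdeal R' ^ r) ϖ₀ with hy
  have hxu : ¬ IsUnit x := by
    intro hu
    apply mk_not_isUnit hr hϖ
    have := hu.map e.symm
    rwa [hx, e.symm_apply_apply] at this
  have hyu : ¬ IsUnit y := mk_not_isUnit hr hϖ₀
  obtain ⟨u₁, hu₁⟩ := mk_dvd_of_not_isUnit hϖ₀ hxu
  have hyx : x ∣ y := by
    have h1 : ¬ IsUnit (e.symm y) := by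
      intro hu
      apply hyu
      have := hu.map e
      rwa [e.apply_symm_apply] at this
    have h2 := map_dvd e (mk_dvd_of_not_isUnit hϖ h1)
    rwa [e.apply_symm_apply] at h2
  obtain ⟨u₂, hu₂⟩ := hyx
  -- `x = y * v` with `v` a unit
  have hloc : IsLocalRing (R' ⧸ maximalIdeal R' ^ r) :=
    IsLocalRing.of_surjective' _ Ideal.Quotient.mk_surjective
  have hv : ∃ v : R' ⧸ maximalIdeal R' ^ r, IsUnit v ∧ x = y * v := by
    by_cases h : IsUnit u₁
    · exact ⟨u₁, h, hu₁⟩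
    · have h1 : x * (1 - u₂ * u₁) = 0 := by
        have : x = x * u₂ * u₁ := by rw [← hu₂]; exact hu₁
        rw [mul_sub, mul_one, ← mul_assoc, ← this, sub_self]
      have h2 : IsUnit (1 - u₂ * u₁) := by
        rcases IsLocalRing.isUnit_or_isUnit_one_sub_self (u₂ * u₁) with h3 | h3
        · exact absurd (isUnit_of_mul_isUnit_right h3) h
        · exact h3
      have h3 : x = 0 := by
        have := h2.mul_left_eq_zero.1 h1
        exact this
      refine ⟨1, isUnit_one, ?_⟩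
      rw [hu₂, h3, zero_mul, zero_mul]
  obtain ⟨v, hvu, hv⟩ := hv
  obtain ⟨b, rfl⟩ := Ideal.Quotient.mk_surjective v
  have hb : IsUnit b := isUnit_of_mk hr hvu
  refine ⟨ϖ, ϖ₀ * b, hϖ, ?_, ?_⟩
  · have hassoc : Associated ϖ₀ (ϖ₀ * b) := ⟨hb.unit, rfl⟩
    exact hassoc.irreducible hϖ₀
  · rw [← hx, hv, map_mul]

/-- The two truncations of length `r + 1` with common truncation of length `r`. -/
theorem exists_pairData {r : ℕ} (hr : 1 ≤ r)
    (e : (R ⧸ maximalIdeal R ^ r) ≃+* (R' ⧸ maximalIdeal R' ^ r)) :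
    Nonempty (PairData (R ⧸ maximalIdeal R ^ (r + 1)) (R' ⧸ maximalIdeal R' ^ (r + 1))
      (R' ⧸ maximalIdeal R' ^ r) (ResidueField R')) := by
  obtain ⟨ϖ, ϖ', hϖ, hϖ', heϖ⟩ := exists_compatible_uniformisers hr e
  have hle : maximalIdeal R ^ (r + 1) ≤ maximalIdeal R ^ r := Ideal.pow_le_pow_right (by omega)
  have hle' : maximalIdeal R' ^ (r + 1) ≤ maximalIdeal R' ^ r := Ideal.pow_le_pow_right (by omega)
  let f : (R ⧸ maximalIdeal R ^ (r + 1)) →+* (R ⧸ maximalIdeal R ^ r) := Ideal.Quotient.factor hle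
  let f' : (R' ⧸ maximalIdeal R' ^ (r + 1)) →+* (R' ⧸ maximalIdeal R' ^ r) :=
    Ideal.Quotient.factor hle'
  have hf : ∀ a, f (Ideal.Quotient.mk _ a) = Ideal.Quotient.mk _ a := fun a => rfl
  have hf' : ∀ a, f' (Ideal.Quotient.mk _ a) = Ideal.Quotient.mk _ a := fun a => rfl
  let κ' : (R' ⧸ maximalIdeal R' ^ (r + 1)) →+* ResidueField R' :=
    Ideal.Quotient.lift _ (residue R') (by
      intro a ha
      rw [residue_eq_zero_iff]
      exact Ideal.pow_le_self (by omega) ha)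
  have hκ' : ∀ a, κ' (Ideal.Quotient.mk _ a) = residue R' a := fun a => rfl
  have hκ'0 : ∀ a, κ' (Ideal.Quotient.mk _ a) = 0 ↔ ϖ' ∣ a := by
    intro a
    rw [hκ', residue_eq_zero_iff, hϖ'.maximalIdeal_eq, Ideal.mem_span_singleton]
  refine ⟨{
    q := e.toRingHom.comp f
    q' := f'
    κ' := κ'
    t := Ideal.Quotient.mk _ ϖ
    t' := Ideal.Quotient.mk _ ϖ'
    r := r
    hr := hr
    q_surj := e.surjective.comp (Ideal.Quotient.factor_surjective hle)
    q'_surj := Ideal.Quotient.factor_surjective hle'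
    κ'_surj := ?_
    q_unit := ?_
    q'_unit := ?_
    κ'_unit := ?_
    hqt := ?_
    hκt := ?_
    tA := ?_
    tA0 := ?_
    t'1 := ?_
    t'2 := ?_
    q't'r := ?_
    t'3 := ?_
    t'4 := ?_ }⟩
  · intro w
    obtain ⟨a, rfl⟩ := residue_surjective w
    exact ⟨Ideal.Quotient.mk _ a, rfl⟩
  · intro x hx
    obtain ⟨a, rfl⟩ := Ideal.Quotient.mk_surjective x
    have h1 : IsUnit (e (Ideal.Quotient.mk (maximalIdeal R ^ r) a)) := hx
    have h2 := h1.map e.symm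
    rw [e.symm_apply_apply] at h2
    exact (isUnit_of_mk hr h2).map _
  · intro x hx
    obtain ⟨a, rfl⟩ := Ideal.Quotient.mk_surjective x
    have h1 : IsUnit (Ideal.Quotient.mk (maximalIdeal R' ^ r) a) := hx
    exact (isUnit_of_mk hr h1).map _
  · intro x hx
    obtain ⟨a, rfl⟩ := Ideal.Quotient.mk_surjective x
    rw [Ne, hκ'0] at hx
    have : IsUnit a := by
      by_contra h
      exact hx (dvd_of_not_isUnit hϖ' h)
    exact this.map _
  · exact heϖ
  · rw [hκ'0]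
  · intro x hx
    obtain ⟨a, rfl⟩ := Ideal.Quotient.mk_surjective x
    have h1 : e (Ideal.Quotient.mk (maximalIdeal R ^ r) a) = 0 := hx
    rw [map_eq_zero_iff e e.injective, mk_eq_zero_iff hϖ] at h1
    obtain ⟨c, rfl⟩ := h1
    refine ⟨Ideal.Quotient.mk _ (ϖ ^ (r - 1) * c), ?_⟩
    rw [← map_mul, ← mul_assoc, ← pow_succ', Nat.sub_add_cancel hr]
  · intro x hx
    obtain ⟨a, rfl⟩ := Ideal.Quotient.mk_surjective x
    rw [← map_mul, mk_eq_zero_iff hϖ, pow_succ'] at hx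
    have h1 : ϖ ^ r ∣ a := (mul_dvd_mul_iff_left hϖ.ne_zero).1 hx
    show e (Ideal.Quotient.mk (maximalIdeal R ^ r) a) = 0
    rw [(mk_eq_zero_iff hϖ r a).2 h1, map_zero]
  · intro x hx
    obtain ⟨a, rfl⟩ := Ideal.Quotient.mk_surjective x
    rw [hκ'0] at hx
    obtain ⟨c, rfl⟩ := hx
    exact ⟨Ideal.Quotient.mk _ c, map_mul _ _ _⟩
  · intro x hx
    obtain ⟨a, rfl⟩ := Ideal.Quotient.mk_surjective x
    have h1 : Ideal.Quotient.mk (maximalIdeal R' ^ r) a = 0 := hx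
    rw [mk_eq_zero_iff hϖ'] at h1
    obtain ⟨c, rfl⟩ := h1
    exact ⟨Ideal.Quotient.mk _ c, by rw [map_mul, map_pow]⟩
  · rw [← map_pow]
    show Ideal.Quotient.mk (maximalIdeal R' ^ r) (ϖ' ^ r) = 0
    rw [mk_eq_zero_iff hϖ']
  · intro x
    obtain ⟨a, rfl⟩ := Ideal.Quotient.mk_surjective x
    rw [hκ'0, ← map_pow, ← map_mul, mk_eq_zero_iff hϖ', pow_succ]
    exact mul_dvd_mul_iff_left (pow_ne_zero _ hϖ'.ne_zero)
  · intro x hx
    obtain ⟨a, rfl⟩ := Ideal.Quotient.mk_surjective x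
    have h1 : Ideal.Quotient.mk (maximalIdeal R' ^ r) a = 0 := hx
    rw [mk_eq_zero_iff hϖ'] at h1
    rw [← map_mul, mk_eq_zero_iff hϖ', pow_succ']
    exact mul_dvd_mul_left _ h1

theorem exists_surjection_of_equiv [Finite (ResidueField R)] [Finite (ResidueField R')]
    {n : Type*} [Fintype n] [DecidableEq n] {r : ℕ} (hr : 1 ≤ r)
    (e : (R ⧸ maximalIdeal R ^ r) ≃+* (R' ⧸ maximalIdeal R' ^ r)) :
    ∃ Θ : MonoidAlgebra ℂ (GL n (R ⧸ maximalIdeal R ^ (r + 1))) →ₐ[ℂ]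
      MonoidAlgebra ℂ (GL n (R' ⧸ maximalIdeal R' ^ (r + 1))), Function.Surjective Θ := by
  obtain ⟨P⟩ := exists_pairData hr e
  have := finite_quot (R := R) (r + 1)
  have := finite_quot (R := R') (r + 1)
  exact P.exists_surjection

/-- **Main theorem.** `ℂ[GL_n(𝔬_{r+1})]` depends only on the ring `𝔬_r`. -/
theorem nonempty_algEquiv_succ [Finite (ResidueField R)] [Finite (ResidueField R')]
    {n : Type*} [Fintype n] [DecidableEq n] {r : ℕ} (hr : 1 ≤ r)
    (e : (R ⧸ maximalIdeal R ^ r) ≃+* (R' ⧸ maximalIdeal R' ^ r)) :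
    Nonempty (MonoidAlgebra ℂ (GL n (R ⧸ maximalIdeal R ^ (r + 1))) ≃ₐ[ℂ]
      MonoidAlgebra ℂ (GL n (R' ⧸ maximalIdeal R' ^ (r + 1)))) := by
  obtain ⟨Θ, hΘ⟩ := exists_surjection_of_equiv (n := n) hr e
  obtain ⟨Θ', hΘ'⟩ := exists_surjection_of_equiv (n := n) hr e.symm
  have := finite_quot (R := R) (r + 1)
  have := finite_quot (R := R') (r + 1)
  have hfin : Module.Finite ℂ (MonoidAlgebra ℂ (GL n (R ⧸ maximalIdeal R ^ (r + 1)))) :=
    Module.Finite.equiv (MonoidAlgebra.coeffLinearEquiv ℂ).symm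
  have hfin' : Module.Finite ℂ (MonoidAlgebra ℂ (GL n (R' ⧸ maximalIdeal R' ^ (r + 1)))) :=
    Module.Finite.equiv (MonoidAlgebra.coeffLinearEquiv ℂ).symm
  have h1 := LinearMap.finrank_le_finrank_of_surjective (f := Θ.toLinearMap) hΘ
  have h2 := LinearMap.finrank_le_finrank_of_surjective (f := Θ'.toLinearMap) hΘ'
  have h3 := le_antisymm h2 h1
  have hinj : Function.Injective Θ :=
    (LinearMap.injective_iff_surjective_of_finrank_eq_finrank (f := Θ.toLinearMap) h3).2 hΘ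
  exact ⟨AlgEquiv.ofBijective Θ ⟨hinj, hΘ⟩⟩

end Pair

end Pool.Agent.MP_fa0f6c_al
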