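import Mathlib
import Pool.Agent.Lib.MP_fa0f6c_al.Main

/-!
# Truncations of large ramification are truncated polynomial rings
-/

set_option autoImplicit false

namespace Pool.Agent.MP_fa0f6c_al

open IsLocalRing Polynomial

section Trunc

variable {R : Type*} [CommRing R] [IsDomain R] [IsDiscreteValuationRing R]

/-- If `K → R/𝔪^r` is a coefficient field then `R/𝔪^r ≃ K[X]/(X^r)`. -/
theorem equiv_truncated {r : ℕ} (hr : 1 ≤ r) {K : Type*} [Field K]
    (s : K →+* R ⧸ maximalIdeal R ^ r) {ϖ : R} (hϖ : Irreducible ϖ)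
    (hs : ∀ b : R ⧸ maximalIdeal R ^ r, ∃ a : K,
      Ideal.Quotient.mk (maximalIdeal R ^ r) ϖ ∣ b - s a) :
    Nonempty ((K[X] ⧸ Ideal.span {(X : K[X]) ^ r}) ≃+* (R ⧸ maximalIdeal R ^ r)) := by
  classical
  have := nontrivial_quot (R := R) hr
  set t := Ideal.Quotient.mk (maximalIdeal R ^ r) ϖ with ht
  have htr : t ^ r = 0 := by
    rw [ht, ← map_pow, mk_eq_zero_iff hϖ]
  let Φ : K[X] →+* R ⧸ maximalIdeal R ^ r := eval₂RingHom s t
  have hΦC : ∀ a, Φ (C a) = s a := fun a => by simp [Φ]
  have hΦX : Φ X = t := by simp [Φ]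
  have hsurj : Function.Surjective Φ := by
    intro b
    have h : ∀ m : ℕ, ∃ f : K[X], t ^ m ∣ b - Φ f := by
      intro m
      induction m with
      | zero => exact ⟨0, by rw [pow_zero]; exact one_dvd _⟩
      | succ m ih =>
        obtain ⟨f, c, hc⟩ := ih
        obtain ⟨a, d, hd⟩ := hs c
        refine ⟨f + C a * X ^ m, d, ?_⟩
        rw [map_add, map_mul, map_pow, hΦC, hΦX]
        have h1 : c = s a + t * d := by linear_combination hd
        have h2 : b = Φ f + t ^ m * c := by linear_combination hc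
        rw [h2, h1]
        ring
    obtain ⟨f, c, hc⟩ := h r
    refine ⟨f, ?_⟩
    rw [htr, zero_mul] at hc
    exact (sub_eq_zero.1 hc).symm
  have hker : RingHom.ker Φ = Ideal.span {(X : K[X]) ^ r} := by
    apply le_antisymm
    · intro f hf
      have hf0 : Φ f = 0 := hf
      rw [Ideal.mem_span_singleton]
      have h : ∀ m ≤ r, (X : K[X]) ^ m ∣ f := by
        intro m
        induction m with
        | zero => intro _; rw [pow_zero]; exact one_dvd _
        | succ m ih =>
          intro hm
          obtain ⟨g, hg⟩ := ih (by omega)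
          have h1 : t ^ m * Φ g = 0 := by
            rw [← hf0, hg, map_mul, map_pow, hΦX]
          have h2 : g.coeff 0 = 0 := by
            by_contra hne
            have h3 : IsUnit (Φ g) := by
              obtain ⟨g', hg'⟩ := X_dvd_sub_C (p := g)
              have h4 : g = X * g' + C (g.coeff 0) := by linear_combination hg'
              have h5 : Φ g = t * Φ g' + s (g.coeff 0) := by
                conv_lhs => rw [h4]
                rw [map_add, map_mul, hΦX, hΦC]
              have h6 : IsUnit (s (g.coeff 0)) := (isUnit_iff_ne_zero.2 hne).map s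
              have h7 : IsNilpotent (t * Φ g') := ⟨r, by rw [mul_pow, htr, zero_mul]⟩
              rw [h5, add_comm]
              exact IsNilpotent.isUnit_add_left_of_commute h7 h6 (Commute.all _ _)
            have h8 : t ^ m = 0 := h3.mul_left_eq_zero.1 h1
            rw [ht, ← map_pow, mk_eq_zero_iff hϖ] at h8
            have h9 := (pow_dvd_pow_iff hϖ.ne_zero hϖ.not_isUnit).1 h8
            omega
          have h10 : X ∣ g := X_dvd_iff.2 h2
          obtain ⟨g', rfl⟩ := h10
          exact ⟨g', by rw [hg]; ring⟩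
      exact h r le_rfl
    · rw [Ideal.span_le, Set.singleton_subset_iff]
      show Φ (X ^ r) = 0
      rw [map_pow, hΦX, htr]
  exact ⟨(Ideal.quotEquivOfEq hker.symm).trans (RingHom.quotientKerEquivOfSurjective hsurj)⟩

/-- A coefficient field, from the iterated Frobenius. -/
theorem exists_coefficient_field {r : ℕ} (hr : 1 ≤ r) [Finite (ResidueField R)]
    {p : ℕ} (hp : p.Prime) (hpr : (p : R) ∈ maximalIdeal R ^ r) {ϖ : R} (hϖ : Irreducible ϖ) :
    ∃ s : ResidueField R →+* R ⧸ maximalIdeal R ^ r,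
      ∀ b : R ⧸ maximalIdeal R ^ r, ∃ a : ResidueField R,
        Ideal.Quotient.mk (maximalIdeal R ^ r) ϖ ∣ b - s a := by
  classical
  have := nontrivial_quot (R := R) hr
  have := Fintype.ofFinite (ResidueField R)
  have hpf : Fact p.Prime := ⟨hp⟩
  have hB : CharP (R ⧸ maximalIdeal R ^ r) p := by
    rw [CharP.charP_iff_prime_eq_zero hp]
    have : ((p : R ⧸ maximalIdeal R ^ r)) = Ideal.Quotient.mk _ (p : R) := by simp
    rw [this, Ideal.Quotient.eq_zero_iff_mem]
    exact hpr
  have hK : CharP (ResidueField R) p := by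
    rw [CharP.charP_iff_prime_eq_zero hp]
    have : ((p : ResidueField R)) = residue R (p : R) := by simp
    rw [this, residue_eq_zero_iff]
    exact Ideal.pow_le_self (by omega) hpr
  have hexp : ExpChar (R ⧸ maximalIdeal R ^ r) p := ExpChar.prime hp
  obtain ⟨f, hf0, hf⟩ := FiniteField.card (ResidueField R) p
  let N : ℕ := (f : ℕ) * r
  have hN : r ≤ p ^ N := by
    have h1 : r ≤ N := Nat.le_mul_of_pos_left r f.pos
    exact h1.trans (Nat.lt_pow_self hp.one_lt).le
  let F : R →+* R ⧸ maximalIdeal R ^ r :=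
    (iterateFrobenius (R ⧸ maximalIdeal R ^ r) p N).comp (Ideal.Quotient.mk _)
  have hF : ∀ a, F a = Ideal.Quotient.mk _ (a ^ p ^ N) := by
    intro a
    show iterateFrobenius (R ⧸ maximalIdeal R ^ r) p N (Ideal.Quotient.mk _ a) = _
    rw [iterateFrobenius_def, map_pow]
  have hF0 : ∀ a ∈ maximalIdeal R, F a = 0 := by
    intro a ha
    rw [hF, mk_eq_zero_iff hϖ]
    have h1 : ϖ ∣ a := by
      rwa [hϖ.maximalIdeal_eq, Ideal.mem_span_singleton] at ha
    exact (pow_dvd_pow _ hN).trans (pow_dvd_pow_of_dvd h1 _)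
  let s : ResidueField R →+* R ⧸ maximalIdeal R ^ r := Ideal.Quotient.lift (maximalIdeal R) F hF0
  refine ⟨s, fun b => ?_⟩
  obtain ⟨c, rfl⟩ := Ideal.Quotient.mk_surjective b
  refine ⟨residue R c, ?_⟩
  have h1 : s (residue R c) = Ideal.Quotient.mk _ (c ^ p ^ N) := hF c
  rw [h1, ← map_sub]
  apply _root_.map_dvd
  rw [← Ideal.mem_span_singleton, ← hϖ.maximalIdeal_eq, ← residue_eq_zero_iff, map_sub, map_pow]
  have h2 : p ^ N = Fintype.card (ResidueField R) ^ r := by
    rw [hf, ← pow_mul]
  rw [h2, FiniteField.pow_card_pow, sub_self]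

end Trunc

variable {R R' : Type*} [CommRing R] [IsDomain R] [IsDiscreteValuationRing R]
  [CommRing R'] [IsDomain R'] [IsDiscreteValuationRing R']

/-- Truncations of length at most the ramification index are isomorphic. -/
theorem trunc_equiv [Finite (ResidueField R)] [Finite (ResidueField R')]
    (hcard : Nat.card (ResidueField R) = Nat.card (ResidueField R'))
    {p r : ℕ} (hp : p.Prime) (hpr : (p : R) ∈ maximalIdeal R ^ r)
    (hpr' : (p : R') ∈ maximalIdeal R' ^ r) :
    Nonempty ((R ⧸ maximalIdeal R ^ r) ≃+* (R' ⧸ maximalIdeal R' ^ r)) := by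
  rcases Nat.eq_zero_or_pos r with rfl | hr
  · have h1 : Subsingleton (R ⧸ maximalIdeal R ^ 0) := by
      rw [pow_zero, Ideal.one_eq_top]
      exact Ideal.Quotient.subsingleton_iff.2 rfl
    have h2 : Subsingleton (R' ⧸ maximalIdeal R' ^ 0) := by
      rw [pow_zero, Ideal.one_eq_top]
      exact Ideal.Quotient.subsingleton_iff.2 rfl
    let _ : Unique (R ⧸ maximalIdeal R ^ 0) := ⟨⟨0⟩, fun _ => Subsingleton.elim _ _⟩
    let _ : Unique (R' ⧸ maximalIdeal R' ^ 0) := ⟨⟨0⟩, fun _ => Subsingleton.elim _ _⟩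
    exact ⟨RingEquiv.ofUnique⟩
  · obtain ⟨ϖ, hϖ⟩ := IsDiscreteValuationRing.exists_irreducible R
    obtain ⟨ϖ', hϖ'⟩ := IsDiscreteValuationRing.exists_irreducible R'
    obtain ⟨s, hs⟩ := exists_coefficient_field hr hp hpr hϖ
    obtain ⟨s', hs'⟩ := exists_coefficient_field hr hp hpr' hϖ'
    have := Fintype.ofFinite (ResidueField R)
    have := Fintype.ofFinite (ResidueField R')
    have hc : Fintype.card (ResidueField R) = Fintype.card (ResidueField R') := by
      rw [← Nat.card_eq_fintype_card, hcard, Nat.card_eq_fintype_card]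
    let k : ResidueField R ≃+* ResidueField R' := FiniteField.ringEquivOfCardEq hc
    obtain ⟨E₁⟩ := equiv_truncated hr s hϖ hs
    obtain ⟨E₂⟩ := equiv_truncated hr (s'.comp k.toRingHom) hϖ' (by
      intro b
      obtain ⟨a, ha⟩ := hs' b
      refine ⟨k.symm a, ?_⟩
      have : (s'.comp k.toRingHom) (k.symm a) = s' a := by
        show s' (k (k.symm a)) = s' a
        rw [k.apply_symm_apply]
      rw [this]
      exact ha)
    exact ⟨E₁.symm.trans E₂⟩

end Pool.Agent.MP_fa0f6c_al
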